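import Pool.Agent.Lib_MP_42f051_lc_p.Defs

/-!
# PROP-SharedObj(n, n - 2): certificates
-/

namespace Pool.Agent.FairDivP

open Pool.Agent.FairDiv Pool.Agent.FairDivS Finset

variable {n m : ℕ}

/-- A tree of agents, grown agent by agent; the edges are shared objects of `T`. `L` are the agents,
`lam` their weights, `D` the shared objects, `P` the sum of the prices of the objects of `D`. For the
edge `X` between the agents `b`, `p` the price is `lam b * v b X = lam p * v p X`. -/
inductive Chain (v : Fin n → Fin m → ℕ) (T : Finset (Fin m)) :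
    Finset (Fin n) → (Fin n → ℕ) → Finset (Fin m) → ℕ → Prop
  | single (a : Fin n) : Chain v T {a} (fun i => if i = a then 1 else 0) ∅ 0
  | add {L : Finset (Fin n)} {lam : Fin n → ℕ} {D : Finset (Fin m)} {P : ℕ}
      (h : Chain v T L lam D P) (b p : Fin n) (X : Fin m) (hb : b ∉ L) (hp : p ∈ L) (hX : X ∈ T)
      (hXD : X ∉ D) (h0 : 0 < v b X) (h1 : 0 < v p X) :
      Chain v T (insert b L) (fun i => if i = b then lam p * v p X else lam i * v b X)
        (insert X D) (P * v b X + lam p * v p X * v b X)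

/-- The certificate: every agent of the tree gets a set of `k - 1` objects of `T`, the objects outside
`T` go to the agents with the highest weighted value, and the weighted sum of the values reaches the
weighted sum of the fair shares. -/
def CertFor (v : Fin n → Fin m → ℕ) (T : Finset (Fin m)) (k : ℕ) (L : Finset (Fin n))
    (lam : Fin n → ℕ) (D : Finset (Fin m)) (P : ℕ) : Prop :=
  ∃ S : Fin n → Finset (Fin m), (∀ a ∈ L, S a ⊆ T \ D ∧ (S a).card = k - 1) ∧
    (∀ a ∈ L, ∀ b ∈ L, a ≠ b → Disjoint (S a) (S b)) ∧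
    ∑ a ∈ L, lam a * ∑ o, v a o ≤
      n * (∑ a ∈ L, ∑ o ∈ S a, lam a * v a o + ∑ o ∈ univ \ T, L.sup (fun a => lam a * v a o) + P)

/-- there is a certificate -/
def HasCert (v : Fin n → Fin m → ℕ) (T : Finset (Fin m)) (k : ℕ) : Prop :=
  ∃ (L : Finset (Fin n)) (lam : Fin n → ℕ) (D : Finset (Fin m)) (P : ℕ),
    Chain v T L lam D P ∧ L ≠ univ ∧ CertFor v T k L lam D P

open scoped Classical in
/-- the objects which are contained in an accepted set of `k` objects -/
noncomputable def Tk (v : Fin n → Fin m → ℕ) (k : ℕ) : Finset (Fin m) :=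
  univ.filter fun o => ∃ a, ∃ R : Finset (Fin m), R.card = k ∧ o ∈ R ∧ AccS v a R

/-- the acceptable sets are the sets with at least `k` objects of `T` -/
def Uniform (v : Fin n → Fin m → ℕ) (k : ℕ) (T : Finset (Fin m)) : Prop :=
  ∀ R, (∃ i, AccS v i R) ↔ k ≤ (R ∩ T).card

/-- the agents of `L` can be satisfied from the objects outside `K` (divisible) -/
def SatSet (v : Fin n → Fin m → ℕ) (L : Finset (Fin n)) (K : Finset (Fin m)) : Prop :=
  ∃ z : Fin n → Fin m → ℝ, (∀ i o, 0 ≤ z i o) ∧
    (∀ o, ∑ i ∈ L, z i o ≤ if o ∈ K then 0 else 1) ∧ ∀ i ∈ L, Acc v i (z i)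

end Pool.Agent.FairDivP
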