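import Mathlib

/-!
# Few shared objects
-/

namespace Pool.Agent.FairDivP

open Finset

/-- a direction in which no utility decreases -/
theorem exists_dir {ι σ : Type} [Fintype ι] [Nonempty ι] [Fintype σ]
    (hS : Fintype.card ι ≤ Fintype.card σ) (M : (σ → ℝ) →ₗ[ℝ] (ι → ℝ)) :
    ∃ t : σ → ℝ, t ≠ 0 ∧ ∀ i, 0 ≤ M t i := by
  by_cases hM : Function.Injective M
  · have h1 : Module.finrank ℝ (σ → ℝ) ≤ Module.finrank ℝ (ι → ℝ) :=
      LinearMap.finrank_le_finrank_of_injective hM
    have h2 : Module.finrank ℝ (σ → ℝ) = Module.finrank ℝ (ι → ℝ) := by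
      refine le_antisymm h1 ?_
      rw [Module.finrank_pi, Module.finrank_pi]
      exact hS
    have h3 : Function.Surjective M :=
      (LinearMap.injective_iff_surjective_of_finrank_eq_finrank h2).1 hM
    obtain ⟨t, ht⟩ := h3 (fun _ => 1)
    refine ⟨t, ?_, fun i => ?_⟩
    · rintro rfl
      obtain ⟨i⟩ := ‹Nonempty ι›
      have := congrFun ht i
      simp at this
    · rw [ht]; exact zero_le_one
  · unfold Function.Injective at hM
    push Not at hM
    obtain ⟨x, y, hxy, hne⟩ := hM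
    refine ⟨x - y, sub_ne_zero.2 hne, fun i => ?_⟩
    rw [map_sub, hxy, sub_self]
    simp

/-- (Y0) -/
theorem few_shared {ι ω : Type} [Fintype ι] [DecidableEq ι] [Nonempty ι] [Fintype ω] [DecidableEq ω]
    (v z : ι → ω → ℝ) (h0 : ∀ i o, 0 ≤ z i o) (h1 : ∀ o, ∑ i, z i o = 1) :
    ∃ z' : ι → ω → ℝ, (∀ i o, 0 ≤ z' i o) ∧ (∀ o, ∑ i, z' i o = 1) ∧
      (∀ i, ∑ o, v i o * z i o ≤ ∑ o, v i o * z' i o) ∧
      ∃ S : Finset ω, S.card < Fintype.card ι ∧ ∀ o, o ∉ S → ∀ i, z' i o = 0 ∨ z' i o = 1 := by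
  classical
  induction hN : (univ.filter fun p : ι × ω => z p.1 p.2 ≠ 0).card using Nat.strong_induction_on
    generalizing z with
  | _ N ih =>
  subst hN
  let S : Finset ω := univ.filter fun o => ∃ i, z i o ≠ 0 ∧ z i o ≠ 1
  by_cases hS : S.card < Fintype.card ι
  · refine ⟨z, h0, h1, fun i => le_rfl, S, hS, fun o ho i => ?_⟩
    by_contra hne
    push Not at hne
    exact ho (mem_filter.2 ⟨mem_univ _, i, hne.1, hne.2⟩)
  push Not at hS
  -- two owners
  have hown : ∀ o, ∃ p : ι × ι, o ∈ S → p.1 ≠ p.2 ∧ 0 < z p.1 o ∧ 0 < z p.2 o := by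
    intro o
    by_cases ho : o ∈ S
    · obtain ⟨_, i, hi0, hi1⟩ := mem_filter.1 ho
      have hi : 0 < z i o := lt_of_le_of_ne (h0 i o) hi0.symm
      obtain ⟨k, hk, hk'⟩ : ∃ k, k ≠ i ∧ 0 < z k o := by
        by_contra hno
        push Not at hno
        have h2 : ∑ k, z k o = z i o :=
          sum_eq_single i (fun k _ hk => le_antisymm (hno k hk) (h0 k o))
            (fun h => absurd (mem_univ i) h)
        exact hi1 (h2.symm.trans (h1 o))
      exact ⟨(i, k), fun _ => ⟨hk.symm, hi, hk'⟩⟩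
    · obtain ⟨i⟩ := ‹Nonempty ι›
      exact ⟨(i, i), fun h => absurd h ho⟩
  choose ow how using hown
  let c : ι → ω → ℝ := fun i o =>
    (if (ow o).1 = i then (1 : ℝ) else 0) - (if (ow o).2 = i then 1 else 0)
  let M : (S → ℝ) →ₗ[ℝ] (ι → ℝ) :=
    ∑ o : S, (LinearMap.proj (R := ℝ) (φ := fun _ : S => ℝ) o).smulRight
      (fun i => v i (o : ω) * c i (o : ω))
  have hMt : ∀ t i, M t i = ∑ o : S, t o * (v i (o : ω) * c i (o : ω)) := by
    intro t i
    simp [M, LinearMap.sum_apply]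
  obtain ⟨t, ht0, ht⟩ := exists_dir (by rw [Fintype.card_coe]; exact hS) M
  let t' : ω → ℝ := fun o => if h : o ∈ S then t ⟨o, h⟩ else 0
  let D : ι → ω → ℝ := fun i o => t' o * c i o
  have ht'S : ∀ o, o ∉ S → t' o = 0 := fun o ho => dif_neg ho
  have hDz : ∀ i o, z i o = 0 → D i o = 0 := by
    intro i o hz
    by_cases ho : o ∈ S
    · obtain ⟨_, h2, h3⟩ := how o ho
      have e1 : (ow o).1 ≠ i := fun h => by rw [h, hz] at h2; exact lt_irrefl _ h2
      have e2 : (ow o).2 ≠ i := fun h => by rw [h, hz] at h3; exact lt_irrefl _ h3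
      simp [D, c, e1, e2]
    · simp [D, ht'S o ho]
  have hDcol : ∀ o, ∑ i, D i o = 0 := by
    intro o
    simp only [D, c, ← mul_sum, sum_sub_distrib, sum_ite_eq, mem_univ, if_true, sub_self, mul_zero]
  have hDu : ∀ i, 0 ≤ ∑ o, v i o * D i o := by
    intro i
    have e : ∑ o, v i o * D i o = M t i := by
      rw [hMt, sum_coe_sort_eq_attach, ← sum_subset (subset_univ S)
        (fun o _ ho => by simp [D, ht'S o ho]), ← sum_attach]
      refine sum_congr rfl fun o _ => ?_
      have : t' (o : ω) = t o := by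
        simp only [t', dif_pos o.2]
      simp only [D, this]
      ring
    rw [e]
    exact ht i
  have hneg : ∃ p : ι × ω, D p.1 p.2 < 0 := by
    obtain ⟨o, ho⟩ : ∃ o, t o ≠ 0 := by
      by_contra hno
      push Not at hno
      exact ht0 (funext hno)
    have e : t' (o : ω) = t o := by simp only [t', dif_pos o.2]
    obtain ⟨h2, _, _⟩ := how o o.2
    rcases lt_or_gt_of_ne ho with h | h
    · refine ⟨((ow o).1, o), ?_⟩
      simp only [D, c, e, if_true, if_neg h2.symm, sub_zero, mul_one]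
      exact h
    · refine ⟨((ow o).2, o), ?_⟩
      simp only [D, c, e, if_true, if_neg h2, zero_sub, mul_neg, mul_one]
      exact neg_lt_zero.2 h
  let P : Finset (ι × ω) := univ.filter fun p => D p.1 p.2 < 0
  obtain ⟨p1, hp1, hmin⟩ := exists_min_image P (fun p => z p.1 p.2 / (-D p.1 p.2))
    (by obtain ⟨p, hp⟩ := hneg; exact ⟨p, mem_filter.2 ⟨mem_univ _, hp⟩⟩)
  have hp1' : D p1.1 p1.2 < 0 := (mem_filter.1 hp1).2
  set s : ℝ := z p1.1 p1.2 / (-D p1.1 p1.2) with hs
  have hs0 : 0 ≤ s := div_nonneg (h0 _ _) (neg_nonneg.2 hp1'.le)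
  let z1 : ι → ω → ℝ := fun i o => z i o + s * D i o
  have hz10 : ∀ i o, 0 ≤ z1 i o := by
    intro i o
    by_cases hD : D i o < 0
    · have h2 := hmin (i, o) (mem_filter.2 ⟨mem_univ _, hD⟩)
      have h3 : s ≤ z i o / (-D i o) := h2
      rw [le_div_iff₀ (neg_pos.2 hD)] at h3
      change 0 ≤ z i o + s * D i o
      linarith
    · have h3 : 0 ≤ s * D i o := mul_nonneg hs0 (not_lt.1 hD)
      change 0 ≤ z i o + s * D i o
      linarith [h0 i o]
  have hz11 : ∀ o, ∑ i, z1 i o = 1 := by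
    intro o
    change ∑ i, (z i o + s * D i o) = 1
    rw [sum_add_distrib, ← mul_sum, hDcol, h1, mul_zero, add_zero]
  have hz1u : ∀ i, ∑ o, v i o * z i o ≤ ∑ o, v i o * z1 i o := by
    intro i
    have e : ∑ o, v i o * z1 i o = ∑ o, v i o * z i o + s * ∑ o, v i o * D i o := by
      rw [mul_sum, ← sum_add_distrib]
      refine sum_congr rfl fun o _ => ?_
      change v i o * (z i o + s * D i o) = _
      ring
    rw [e]
    linarith [mul_nonneg hs0 (hDu i)]
  have hlt : (univ.filter fun p : ι × ω => z1 p.1 p.2 ≠ 0).card <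
      (univ.filter fun p : ι × ω => z p.1 p.2 ≠ 0).card := by
    apply card_lt_card
    rw [ssubset_iff_of_subset]
    · refine ⟨p1, ?_, ?_⟩
      · rw [mem_filter]
        refine ⟨mem_univ _, fun h => ?_⟩
        rw [hDz _ _ h] at hp1'
        exact lt_irrefl _ hp1'
      · rw [mem_filter]
        push Not
        intro _
        change z p1.1 p1.2 + s * D p1.1 p1.2 = 0
        rw [hs, div_mul_eq_mul_div, div_neg, mul_div_assoc, div_self hp1'.ne]
        ring
    · intro p hp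
      rw [mem_filter] at hp ⊢
      refine ⟨mem_univ _, fun h => hp.2 ?_⟩
      change z p.1 p.2 + s * D p.1 p.2 = 0
      rw [hDz _ _ h, h, mul_zero, add_zero]
  obtain ⟨z', g0, g1, g2, g3⟩ := ih _ hlt z1 hz10 hz11 rfl
  exact ⟨z', g0, g1, fun i => (hz1u i).trans (g2 i), g3⟩

end Pool.Agent.FairDivP
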