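import Pool.Agent.Lib_MP_42f051_lc_p.Defs
import Pool.Agent.Lib_MP_42f051_lc_p.Y0

/-!
# PROP-SharedObj(n, n - 2): pieces Y1 and Y2
-/

namespace Pool.Agent.FairDivP

open Pool.Agent.FairDiv Pool.Agent.FairDivS Finset

variable {n m : ℕ}

/-- an allocation is integral outside the set `X`: at most `|X|` shared objects -/
private theorem sharedObj_le {z : Fin n → Fin m → ℝ} {X : Finset (Fin m)}
    (h : ∀ o, o ∉ X → ∀ i, z i o = 0 ∨ z i o = 1) : sharedObj z ≤ X.card := by
  classical
  unfold sharedObj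
  refine card_le_card fun o ho => ?_
  rw [mem_filter] at ho
  obtain ⟨-, i, h1, h2⟩ := ho
  by_contra hX
  rcases h o hX i with h3 | h3 <;> rw [h3] at h1 h2
  · exact lt_irrefl _ h1
  · exact lt_irrefl _ h2

/-- (Y1) -/
theorem yes_of_satRest (hn : 2 ≤ n) (v : Fin n → Fin m → ℕ) (j : Fin n) (K : Finset (Fin m))
    (hj : AccS v j K) (h : SatRest v j K) : Yes v (n - 2) := by
  classical
  obtain ⟨z, hz0, hz1, hz2⟩ := h
  have hi0 : ∃ i0 : Fin n, i0 ≠ j := by
    by_contra hcon
    push Not at hcon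
    have := hcon ⟨0, by omega⟩
    have h2 := hcon ⟨1, by omega⟩
    rw [← h2] at this
    simp at this
  obtain ⟨i0, hi0⟩ := hi0
  have : Nonempty {i : Fin n // i ≠ j} := ⟨⟨i0, hi0⟩⟩
  have hsum : ∀ f : Fin n → ℝ, ∑ i : {i : Fin n // i ≠ j}, f i = ∑ i ∈ univ.erase j, f i := by
    intro f
    rw [← Finset.sum_subtype (univ.erase j) (fun i => by simp) f]
  have hzK : ∀ i, i ≠ j → ∀ o, o ∈ K → z i o = 0 := by
    intro i hij o ho
    have h1 := hz1 o
    rw [if_pos ho] at h1
    have h2 : z i o ≤ ∑ i ∈ univ.erase j, z i o :=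
      single_le_sum (f := fun i => z i o) (fun i _ => hz0 i o) (mem_erase.mpr ⟨hij, mem_univ i⟩)
    exact le_antisymm (h2.trans h1) (hz0 i o)
  set w : {i : Fin n // i ≠ j} → {o : Fin m // o ∉ K} → ℝ := fun i o =>
    z i o + if i = ⟨i0, hi0⟩ then 1 - ∑ i' ∈ univ.erase j, z i' o else 0 with hw
  have hle : ∀ o : {o : Fin m // o ∉ K}, ∑ i' ∈ univ.erase j, z i' o ≤ 1 := by
    intro o
    have := hz1 o
    rwa [if_neg o.2] at this
  have hzw : ∀ i o, z i.1 o.1 ≤ w i o := by
    intro i o
    rw [hw]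
    dsimp only
    split_ifs
    · linarith [hle o]
    · linarith
  have hw0 : ∀ i o, 0 ≤ w i o := fun i o => (hz0 _ _).trans (hzw i o)
  have hw1 : ∀ o, ∑ i, w i o = 1 := by
    intro o
    rw [hw]
    simp only [sum_add_distrib, sum_ite_eq', mem_univ, if_true]
    rw [hsum (fun i => z i o)]
    ring
  obtain ⟨z', h0, h1, h2, S, hS, hS'⟩ := few_shared
    (fun (i : {i : Fin n // i ≠ j}) (o : {o : Fin m // o ∉ K}) => (v i o : ℝ)) w hw0 hw1
  rw [Fintype.card_subtype_compl, Fintype.card_fin, Fintype.card_subtype_eq] at hS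
  set Z : Fin n → Fin m → ℝ := fun i o =>
    if hi : i = j then (if o ∈ K then 1 else 0) else (if ho : o ∈ K then 0 else z' ⟨i, hi⟩ ⟨o, ho⟩)
    with hZ
  have hZj : ∀ o, Z j o = if o ∈ K then 1 else 0 := fun o => by
    rw [hZ]
    dsimp only
    rw [dif_pos rfl]
  have hZK : ∀ i, i ≠ j → ∀ o, o ∈ K → Z i o = 0 := fun i hi o ho => by
    rw [hZ]
    dsimp only
    rw [dif_neg hi, dif_pos ho]
  have hZn : ∀ (i : {i : Fin n // i ≠ j}) (o : {o : Fin m // o ∉ K}), Z i o = z' i o := by
    intro i o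
    rw [hZ]
    dsimp only
    rw [dif_neg i.2, dif_neg o.2]
  refine ⟨Z, ⟨?_, ?_⟩, ?_, ?_⟩
  · intro i o
    by_cases hi : i = j
    · rw [hi, hZj]
      split_ifs <;> norm_num
    · by_cases ho : o ∈ K
      · rw [hZK i hi o ho]
      · have := hZn ⟨i, hi⟩ ⟨o, ho⟩
        dsimp only at this
        rw [this]
        exact h0 _ _
  · intro o
    rw [← Finset.add_sum_erase univ (fun i => Z i o) (mem_univ j), hZj, ← hsum (fun i => Z i o)]
    by_cases ho : o ∈ K
    · rw [if_pos ho, sum_eq_zero (fun i _ => hZK i.1 i.2 o ho), add_zero]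
    · rw [if_neg ho, zero_add, ← h1 ⟨o, ho⟩]
      exact sum_congr rfl fun i _ => hZn i ⟨o, ho⟩
  · intro i
    unfold FairDiv.val
    by_cases hi : i = j
    · rw [hi]
      have e1 : ∑ o, (v j o : ℝ) * Z j o = ∑ o ∈ K, (v j o : ℝ) := by
        rw [← Finset.sum_filter_add_sum_filter_not univ (fun o => o ∈ K)]
        rw [Finset.filter_mem_eq_inter, univ_inter]
        rw [sum_congr rfl (g := fun o => (v j o : ℝ)) (fun o ho => by rw [hZj, if_pos ho, mul_one]),
          sum_eq_zero (s := univ.filter fun o => o ∉ K)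
            (fun o ho => by rw [hZj, if_neg (mem_filter.mp ho).2, mul_zero]), add_zero]
      rw [e1]
      exact hj
    · have e1 : ∀ f : Fin m → ℝ, (∀ o, o ∈ K → f o = 0) →
          ∑ o, (v i o : ℝ) * f o = ∑ o : {o : Fin m // o ∉ K}, (v i o : ℝ) * f o := by
        intro f hf
        rw [← Finset.sum_subtype (univ.filter fun o => o ∉ K) (fun o => by simp)
          (fun o => (v i o : ℝ) * f o), sum_filter]
        refine sum_congr rfl fun o _ => ?_
        by_cases ho : o ∈ K
        · rw [if_neg (not_not.mpr ho), hf o ho, mul_zero]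
        · rw [if_pos ho]
      have h3 := hz2 i hi
      unfold Acc fs at h3
      rw [e1 (z i) (hzK i hi)] at h3
      rw [e1 (Z i) (hZK i hi)]
      refine h3.trans (le_trans (sum_le_sum fun o _ =>
        mul_le_mul_of_nonneg_left (hzw ⟨i, hi⟩ o) (Nat.cast_nonneg _)) ((h2 ⟨i, hi⟩).trans ?_))
      refine le_of_eq (sum_congr rfl fun o _ => ?_)
      rw [← hZn ⟨i, hi⟩ o]
  · refine (sharedObj_le (X := S.map ⟨Subtype.val, Subtype.val_injective⟩) ?_).trans ?_
    · intro o ho i
      by_cases hi : i = j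
      · rw [hi, hZj]
        split_ifs
        · exact Or.inr rfl
        · exact Or.inl rfl
      · by_cases hoK : o ∈ K
        · exact Or.inl (hZK i hi o hoK)
        · have e2 := hZn ⟨i, hi⟩ ⟨o, hoK⟩
          dsimp only at e2
          rw [e2]
          refine hS' _ (fun hoS => ho ?_) _
          rw [mem_map]
          exact ⟨⟨o, hoK⟩, hoS, rfl⟩
    · rw [card_map]
      omega

/-- (Y2) `c o` is the bundle of the object `o` outside `X`. -/
theorem yes_of_rejected (hn : 1 ≤ n) (v : Fin n → Fin m → ℕ) (X : Finset (Fin m))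
    (c : Fin m → Fin n)
    (h : ∀ i j, ¬ AccS v i (univ.filter fun o => o ∉ X ∧ c o = j)) : Yes v X.card := by
  classical
  have : NeZero n := ⟨by omega⟩
  have hnr : (n : ℝ) ≠ 0 := by exact_mod_cast (by omega : n ≠ 0)
  set B : Fin n → Finset (Fin m) := fun j => univ.filter fun o => o ∉ X ∧ c o = j with hB
  set x : Fin n → ℝ := fun i => ∑ o ∈ X, (v i o : ℝ) with hx
  set d : Fin n → Fin n → ℝ := fun i j => fs v i - ∑ o ∈ B j, (v i o : ℝ) with hd
  have hd0 : ∀ i j, 0 < d i j := fun i j => by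
    have := h i j
    unfold AccS at this
    rw [hd]
    dsimp only
    rw [hB]
    dsimp only
    linarith
  have hBsum : ∀ i, ∑ j, ∑ o ∈ B j, (v i o : ℝ) = ∑ o ∈ univ.filter (fun o => o ∉ X), (v i o : ℝ) := by
    intro i
    rw [← Finset.sum_fiberwise (univ.filter fun o => o ∉ X) c (fun o => (v i o : ℝ))]
    refine sum_congr rfl fun j _ => ?_
    rw [hB, filter_filter]
  have hrow : ∀ i, ∑ j, d i j = x i := by
    intro i
    rw [hd]
    simp only
    rw [sum_sub_distrib, hBsum, sum_const, card_univ, Fintype.card_fin, nsmul_eq_mul]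
    unfold fs
    rw [mul_div_cancel₀ _ hnr, hx]
    simp only
    rw [← Finset.sum_filter_add_sum_filter_not univ (fun o => o ∈ X) (fun o => (v i o : ℝ)),
      Finset.filter_mem_eq_inter, univ_inter]
    ring
  have hx0 : ∀ i, 0 < x i := fun i => by
    rw [← hrow]
    exact sum_pos (fun j _ => hd0 i j) ⟨0, mem_univ _⟩
  set q : Fin n → Fin n → ℝ := fun i j => d i j / x i with hq
  have hq0 : ∀ i j, 0 < q i j := fun i j => div_pos (hd0 i j) (hx0 i)
  have hq1 : ∀ i, ∑ j, q i j = 1 := fun i => by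
    rw [hq]
    simp only
    rw [← sum_div, hrow, div_self (hx0 i).ne']
  obtain ⟨s, hs⟩ : ∃ s : Fin n, ∑ i, q i (i + s) ≤ 1 := by
    by_contra hcon
    push Not at hcon
    have h1 : ∑ _s : Fin n, (1 : ℝ) < ∑ s : Fin n, ∑ i, q i (i + s) :=
      sum_lt_sum_of_nonempty ⟨0, mem_univ _⟩ fun s _ => hcon s
    rw [sum_comm] at h1
    have h2 : ∑ i : Fin n, ∑ s, q i (i + s) = ∑ _i : Fin n, (1 : ℝ) := by
      refine sum_congr rfl fun i _ => ?_
      rw [← hq1 i]
      exact Equiv.sum_comp (Equiv.addLeft i) (fun j => q i j)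
    rw [h2] at h1
    exact lt_irrefl _ h1
  set Z : Fin n → Fin m → ℝ := fun i o =>
    if o ∈ X then q i (i + s) + (if i = 0 then 1 - ∑ i, q i (i + s) else 0)
    else if c o = i + s then 1 else 0 with hZ
  have hZX : ∀ i o, o ∈ X → Z i o = q i (i + s) + (if i = 0 then 1 - ∑ i, q i (i + s) else 0) :=
    fun i o ho => by rw [hZ]; simp only; rw [if_pos ho]
  have hZn : ∀ i o, o ∉ X → Z i o = if c o = i + s then 1 else 0 :=
    fun i o ho => by rw [hZ]; simp only; rw [if_neg ho]
  have hge : ∀ i, q i (i + s) ≤ q i (i + s) + (if i = 0 then 1 - ∑ i, q i (i + s) else 0) := by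
    intro i
    split_ifs
    · linarith
    · linarith
  refine ⟨Z, ⟨?_, ?_⟩, ?_, ?_⟩
  · intro i o
    by_cases ho : o ∈ X
    · rw [hZX i o ho]
      exact (hq0 _ _).le.trans (hge i)
    · rw [hZn i o ho]
      split_ifs <;> norm_num
  · intro o
    by_cases ho : o ∈ X
    · rw [sum_congr rfl fun i _ => hZX i o ho, sum_add_distrib, sum_ite_eq', if_pos (mem_univ _)]
      ring
    · rw [sum_congr rfl fun i _ => hZn i o ho]
      rw [sum_congr rfl (g := fun i => if i = c o - s then (1 : ℝ) else 0)]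
      · rw [sum_ite_eq', if_pos (mem_univ _)]
      · intro i _
        refine if_congr ?_ rfl rfl
        constructor
        · intro h1
          rw [h1, add_sub_cancel_right]
        · intro h1
          rw [h1, sub_add_cancel]
  · intro i
    unfold FairDiv.val
    have e1 : ∑ o ∈ X, (v i o : ℝ) * Z i o ≥ d i (i + s) := by
      have e2 : d i (i + s) = ∑ o ∈ X, (v i o : ℝ) * q i (i + s) := by
        rw [← sum_mul, hq]
        simp only
        rw [mul_div_cancel₀ _ (hx0 i).ne']
      rw [e2]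
      refine sum_le_sum fun o ho => mul_le_mul_of_nonneg_left ?_ (Nat.cast_nonneg _)
      rw [hZX i o ho]
      exact hge i
    have e3 : ∑ o ∈ univ.filter (fun o => o ∉ X), (v i o : ℝ) * Z i o =
        ∑ o ∈ B (i + s), (v i o : ℝ) := by
      rw [hB]
      simp only
      rw [← filter_filter, sum_filter (fun o => c o = i + s)]
      refine sum_congr rfl fun o ho => ?_
      rw [hZn i o (mem_filter.mp ho).2]
      split_ifs
      · rw [mul_one]
      · rw [mul_zero]
    rw [← Finset.sum_filter_add_sum_filter_not univ (fun o => o ∈ X) (fun o => (v i o : ℝ) * Z i o),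
      Finset.filter_mem_eq_inter, univ_inter, e3]
    have e4 : d i (i + s) = fs v i - ∑ o ∈ B (i + s), (v i o : ℝ) := rfl
    rw [e4] at e1
    change fs v i ≤ _
    linarith
  · refine sharedObj_le fun o ho i => ?_
    rw [hZn i o ho]
    split_ifs
    · exact Or.inr rfl
    · exact Or.inl rfl

end Pool.Agent.FairDivP
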