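import Pool.Agent.Lib_MP_42f051_lc_p.Defs

/-!
# PROP-SharedObj(n, n - 2): the matching lemma

If all objects are cut into `n` bundles, each accepted by somebody, the bundles outside `J` by distinct
agents, then some integral bundle can be given to an agent such that the others can be satisfied from the
rest.
-/

namespace Pool.Agent.FairDivP

open Pool.Agent.FairDiv Pool.Agent.FairDivS Finset

variable {n m : ℕ}

/-- The matching lemma (before the reduction of the number of shared objects). -/
theorem bundles_core (hn : 2 ≤ n) (v : Fin n → Fin m → ℕ) (b : Fin n → Fin m → ℝ)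
    (hb0 : ∀ j o, 0 ≤ b j o) (hb1 : ∀ o, ∑ j, b j o = 1) (J : Finset (Fin n)) (hJ : J.Nonempty)
    (hacc : ∀ j, ∃ i, Acc v i (b j)) (a : Fin n → Fin n)
    (ha : ∀ j, j ∉ J → Acc v (a j) (b j)) (hinj : Set.InjOn a {j | j ∉ J}) :
    ∃ j ∈ J, ∃ c, Acc v c (b j) ∧ ∃ z : Fin n → Fin m → ℝ, (∀ i o, 0 ≤ z i o) ∧
      (∀ o, ∑ i ∈ univ.erase c, z i o ≤ 1 - b j o) ∧ ∀ i, i ≠ c → Acc v i (z i) := by
  classical
  set N : Fin n → Finset (Fin n) := fun j => univ.filter fun i => Acc v i (b j) with hN
  have memN : ∀ i j, i ∈ N j ↔ Acc v i (b j) := fun i j => by simp [hN]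
  by_cases hall : ∀ s : Finset (Fin n), s.card ≤ (s.biUnion N).card
  · obtain ⟨f, hf, hfN⟩ := (Finset.all_card_le_biUnion_card_iff_exists_injective N).1 hall
    have hbij : Function.Bijective f := Finite.injective_iff_bijective.1 hf
    obtain ⟨j0, hj0⟩ := hJ
    let e : Fin n ≃ Fin n := Equiv.ofBijective f hbij
    have he : ∀ j, e j = f j := fun j => rfl
    refine ⟨j0, hj0, f j0, (memN _ _).1 (hfN j0), fun i => b (e.symm i), fun i o => hb0 _ _,
      fun o => ?_, fun i _ => ?_⟩
    · have h1 : ∑ i, b (e.symm i) o = 1 := by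
        rw [← hb1 o]
        exact Equiv.sum_comp e.symm (fun j => b j o)
      have h2 := Finset.add_sum_erase univ (fun i => b (e.symm i) o) (mem_univ (f j0))
      have h3 : e.symm (f j0) = j0 := by rw [← he, Equiv.symm_apply_apply]
      simp only [h3] at h2
      rw [h1] at h2
      linarith
    · have := (memN _ _).1 (hfN (e.symm i))
      rwa [← he, Equiv.apply_symm_apply] at this
  · push Not at hall
    -- a violator with the minimal number of elements
    obtain ⟨P, hP, hmin⟩ : ∃ P : Finset (Fin n), (P.biUnion N).card < P.card ∧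
        ∀ Q : Finset (Fin n), Q.card < P.card → Q.card ≤ (Q.biUnion N).card := by
      obtain ⟨P, hP, hmin⟩ := exists_min_image
        (univ.filter fun s : Finset (Fin n) => (s.biUnion N).card < s.card) Finset.card (by
          obtain ⟨s, hs⟩ := hall
          exact ⟨s, by simpa using hs⟩)
      refine ⟨P, by simpa using hP, fun Q hQ => ?_⟩
      by_contra hc
      have := hmin Q (by simpa using hc)
      omega
    -- it contains an integral bundle
    obtain ⟨j1, hj1P, hj1J⟩ : ∃ j1 ∈ P, j1 ∈ J := by
      by_contra hc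
      push Not at hc
      have h1 : P.card ≤ (P.biUnion N).card := by
        rw [← card_image_of_injOn (f := a) (s := P) (fun x hx y hy hxy => hinj (hc x hx) (hc y hy) hxy)]
        apply card_le_card
        intro i hi
        obtain ⟨j, hj, rfl⟩ := mem_image.1 hi
        exact mem_biUnion.2 ⟨j, hj, (memN _ _).2 (ha j (hc j hj))⟩
      omega
    have h2 : 2 ≤ P.card := by
      obtain ⟨i, hi⟩ := hacc j1
      have : 0 < (P.biUnion N).card := card_pos.2 ⟨i, mem_biUnion.2 ⟨j1, hj1P, (memN _ _).2 hi⟩⟩
      omega
    obtain ⟨j0, hj0P, hj01⟩ : ∃ j0 ∈ P, j0 ≠ j1 := by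
      obtain ⟨x, hx, y, hy, hxy⟩ := one_lt_card.1 (by omega : 1 < P.card)
      by_cases h : x = j1
      · exact ⟨y, hy, fun h' => hxy (h.trans h'.symm)⟩
      · exact ⟨x, hx, h⟩
    set P' := P.erase j0 with hP'
    have hcard : P'.card = P.card - 1 := card_erase_of_mem hj0P
    -- Hall's theorem
    obtain ⟨g, hg, hgN⟩ := (Finset.all_card_le_biUnion_card_iff_exists_injective
      (fun j : {j // j ∈ P'} => N j.1)).1 (fun s => by
        have h3 : (s.biUnion fun j => N j.1) = (s.map (Function.Embedding.subtype _)).biUnion N := by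
          ext i
          simp [mem_biUnion]
        rw [h3, ← card_map (Function.Embedding.subtype _) (s := s)]
        apply hmin
        have h4 : (s.map (Function.Embedding.subtype _)).card ≤ P'.card := by
          apply card_le_card
          intro j hj
          obtain ⟨j', _, rfl⟩ := mem_map.1 hj
          exact j'.2
        omega)
    have himg : univ.image g = P.biUnion N := by
      apply eq_of_subset_of_card_le
      · intro i hi
        obtain ⟨j, _, rfl⟩ := mem_image.1 hi
        exact mem_biUnion.2 ⟨j.1, mem_of_mem_erase j.2, hgN j⟩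
      · rw [card_image_of_injective _ hg, card_univ, Fintype.card_coe]
        omega
    have hcA : (P.biUnion N).card = P'.card := by
      rw [← himg, card_image_of_injective _ hg, card_univ, Fintype.card_coe]
    have hj1P' : j1 ∈ P' := mem_erase.2 ⟨hj01.symm, hj1P⟩
    -- the inverse
    have hinv : ∀ i, ∃ j : Fin n, i ∈ P.biUnion N → ∃ h : j ∈ P', g ⟨j, h⟩ = i := by
      intro i
      by_cases h : i ∈ P.biUnion N
      · rw [← himg] at h
        obtain ⟨j, _, rfl⟩ := mem_image.1 h
        exact ⟨j.1, fun _ => ⟨j.2, rfl⟩⟩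
      · exact ⟨j1, fun h' => absurd h' h⟩
    choose q hq using hinv
    set A := univ \ P.biUnion N with hA
    have hAcard : A.card = n - P'.card := by
      rw [hA, card_sdiff_of_subset (subset_univ _), card_univ, Fintype.card_fin, hcA]
    have hPn : P'.card ≤ n := by
      have := card_le_univ P'
      rwa [Fintype.card_fin] at this
    set R : Fin m → ℝ := fun o => 1 - ∑ j ∈ P', b j o with hR
    have hR0 : ∀ o, 0 ≤ R o := by
      intro o
      have h3 : ∑ j ∈ P', b j o ≤ ∑ j, b j o :=
        sum_le_sum_of_subset_of_nonneg (subset_univ _) (fun j _ _ => hb0 j o)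
      rw [hb1 o] at h3
      simp only [hR]
      linarith
    refine ⟨j1, hj1J, g ⟨j1, hj1P'⟩, (memN _ _).1 (hgN ⟨j1, hj1P'⟩),
      fun i o => if i ∈ P.biUnion N then b (q i) o else R o / A.card, ?_, ?_, ?_⟩
    · intro i o
      simp only
      split_ifs
      · exact hb0 _ _
      · exact div_nonneg (hR0 o) (Nat.cast_nonneg _)
    · intro o
      set c := g ⟨j1, hj1P'⟩ with hc
      have hcM : c ∈ P.biUnion N := by rw [← himg]; exact mem_image_of_mem _ (mem_univ _)
      have h3 : ∑ i ∈ univ.erase c, (if i ∈ P.biUnion N then b (q i) o else R o / A.card) =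
          ∑ i ∈ (P.biUnion N).erase c, b (q i) o + ∑ i ∈ A, R o / A.card := by
        have h4 : univ.erase c = (P.biUnion N).erase c ∪ A := by
          ext i
          simp only [mem_erase, mem_univ, and_true, mem_union, hA, mem_sdiff, true_and]
          constructor
          · intro h
            by_cases h' : i ∈ P.biUnion N
            · exact Or.inl ⟨h, h'⟩
            · exact Or.inr h'
          · rintro (⟨h, _⟩ | h)
            · exact h
            · rintro rfl
              exact h hcM
        rw [h4, sum_union]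
        · congr 1
          · apply sum_congr rfl
            intro i hi
            rw [if_pos (mem_of_mem_erase hi)]
          · apply sum_congr rfl
            intro i hi
            rw [if_neg (mem_sdiff.1 hi).2]
        · rw [disjoint_left]
          intro i hi hi'
          exact (mem_sdiff.1 hi').2 (mem_of_mem_erase hi)
      rw [h3]
      have h5 : ∑ i ∈ (P.biUnion N).erase c, b (q i) o = ∑ j ∈ P'.erase j1, b j o := by
        refine sum_bij' (fun i _ => q i) (fun j hj => g ⟨j, mem_of_mem_erase hj⟩) ?_ ?_ ?_ ?_ ?_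
        · intro i hi
          obtain ⟨h, h'⟩ := hq i (mem_of_mem_erase hi)
          refine mem_erase.2 ⟨fun h6 => (mem_erase.1 hi).1 ?_, h⟩
          rw [← h', hc]
          congr 1
          exact Subtype.ext h6
        · intro j hj
          refine mem_erase.2 ⟨fun h6 => (mem_erase.1 hj).1 ?_, ?_⟩
          · have := hg h6
            exact congrArg Subtype.val this
          · rw [← himg]; exact mem_image_of_mem _ (mem_univ _)
        · intro i hi
          obtain ⟨h, h'⟩ := hq i (mem_of_mem_erase hi)
          exact h'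
        · intro j hj
          obtain ⟨h, h'⟩ := hq (g ⟨j, mem_of_mem_erase hj⟩) (by
            rw [← himg]; exact mem_image_of_mem _ (mem_univ _))
          exact congrArg Subtype.val (hg h')
        · intro i hi
          rfl
      rw [h5]
      have h6 : b j1 o + ∑ j ∈ P'.erase j1, b j o = ∑ j ∈ P', b j o :=
        add_sum_erase P' (fun j => b j o) hj1P'
      have h7 : ∑ i ∈ A, R o / A.card ≤ R o := by
        rw [sum_const, nsmul_eq_mul]
        rcases Nat.eq_zero_or_pos A.card with h8 | h8
        · rw [h8]; simp [hR0 o]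
        · have h9 : (A.card : ℝ) ≠ 0 := by positivity
          rw [mul_div_cancel₀ _ h9]
      have h8 : R o = 1 - ∑ j ∈ P', b j o := rfl
      linarith
    · intro i hi
      by_cases h : i ∈ P.biUnion N
      · obtain ⟨h3, h4⟩ := hq i h
        have h5 := (memN _ _).1 (hgN ⟨q i, h3⟩)
        simp only [h, if_true]
        rw [h4] at h5
        exact h5
      · simp only [h, if_false]
        have h3 : ∀ j ∈ P', ∑ o, (v i o : ℝ) * b j o < fs v i := by
          intro j hj
          by_contra hc
          push Not at hc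
          exact h (mem_biUnion.2 ⟨j, mem_of_mem_erase hj, (memN _ _).2 hc⟩)
        have hApos : 0 < A.card := card_pos.2 ⟨i, mem_sdiff.2 ⟨mem_univ _, h⟩⟩
        have hApos' : (0 : ℝ) < A.card := by exact_mod_cast hApos
        have hn0 : (0 : ℝ) < n := by exact_mod_cast (by omega : 0 < n)
        have h4 : (∑ o, (v i o : ℝ)) = n * fs v i := by
          unfold fs
          rw [mul_div_cancel₀ _ hn0.ne']
        have h5 : ∑ o, (v i o : ℝ) * R o = n * fs v i - ∑ j ∈ P', ∑ o, (v i o : ℝ) * b j o := by
          rw [← h4, sum_comm, ← sum_sub_distrib]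
          apply sum_congr rfl
          intro o _
          simp only [hR]
          rw [← mul_sum]
          ring
        have h6 : ∑ j ∈ P', ∑ o, (v i o : ℝ) * b j o ≤ P'.card * fs v i := by
          rw [← nsmul_eq_mul, ← sum_const]
          exact sum_le_sum fun j hj => (h3 j hj).le
        have h7 : (A.card : ℝ) = n - P'.card := by
          rw [hAcard, Nat.cast_sub hPn]
        unfold Acc
        have h8 : ∑ o, (v i o : ℝ) * (R o / A.card) = (∑ o, (v i o : ℝ) * R o) / A.card := by
          rw [sum_div]
          apply sum_congr rfl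
          intro o _
          ring
        rw [h8, le_div_iff₀ hApos', h5, h7]
        nlinarith

/-- (Y3) `b j`, `j < n`, are the bundles; the bundles `j ∈ J` are integral; `a j` is an agent who
accepts the bundle `j ∉ J`. The lemma (Y1) is a hypothesis. -/
theorem yes_of_bundles' (Y1 : ∀ (v : Fin n → Fin m → ℕ) (j : Fin n) (K : Finset (Fin m)),
      AccS v j K → SatRest v j K → Yes v (n - 2))
    (hn : 2 ≤ n) (v : Fin n → Fin m → ℕ) (b : Fin n → Fin m → ℝ)
    (hb0 : ∀ j o, 0 ≤ b j o) (hb1 : ∀ o, ∑ j, b j o = 1) (J : Finset (Fin n)) (hJ : J.Nonempty)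
    (hint : ∀ j ∈ J, ∀ o, b j o = 0 ∨ b j o = 1)
    (hacc : ∀ j, ∃ i, Acc v i (b j)) (a : Fin n → Fin n)
    (ha : ∀ j, j ∉ J → Acc v (a j) (b j)) (hinj : Set.InjOn a {j | j ∉ J}) : Yes v (n - 2) := by
  classical
  obtain ⟨j, hj, c, hc, z, hz0, hz1, hz⟩ := bundles_core hn v b hb0 hb1 J hJ hacc a ha hinj
  set K : Finset (Fin m) := univ.filter fun o => b j o = 1 with hK
  have hb : ∀ o, b j o = if o ∈ K then 1 else 0 := by
    intro o
    by_cases h : b j o = 1
    · rw [if_pos (by simp [hK, h]), h]
    · rw [if_neg (by simp [hK, h])]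
      exact (hint j hj o).resolve_right h
  refine Y1 v c K ?_ ⟨z, hz0, fun o => ?_, hz⟩
  · unfold AccS
    unfold Acc at hc
    refine hc.trans (le_of_eq ?_)
    rw [← Finset.sum_filter_add_sum_filter_not univ (fun o => o ∈ K)]
    have h1 : ∑ o ∈ univ.filter (fun o => o ∈ K), (v c o : ℝ) * b j o = ∑ o ∈ K, (v c o : ℝ) := by
      rw [Finset.filter_mem_eq_inter, Finset.univ_inter]
      apply sum_congr rfl
      intro o ho
      rw [hb o, if_pos ho, mul_one]
    have h2 : ∑ o ∈ univ.filter (fun o => ¬ o ∈ K), (v c o : ℝ) * b j o = 0 := by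
      apply sum_eq_zero
      intro o ho
      rw [hb o, if_neg (mem_filter.1 ho).2, mul_zero]
    rw [h1, h2, add_zero]
  · have := hz1 o
    rw [hb o] at this
    split_ifs at this ⊢ <;> linarith

end Pool.Agent.FairDivP
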