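import Pool.Agent.Lib_MP_42f051_lc_p.Cert
import Pool.Agent.Lib_MP_42f051_lc_p.Y12
import Pool.Agent.Lib_MP_42f051_lc_p.Y3

/-!
# PROP-SharedObj(n, n - 2): a set of satisfied agents in a uniform instance gives an allocation
-/

namespace Pool.Agent.FairDivP

open Pool.Agent.FairDiv Pool.Agent.FairDivS Finset

variable {n m : ℕ}

/-- disjoint subsets with `k` elements, one for every member of `s` -/
theorem exists_disjoint_parts {ι α : Type} [DecidableEq ι] [DecidableEq α] (k : ℕ)
    (K : Finset α) (s : Finset ι) :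
    s.card * k ≤ K.card → ∃ f : ι → Finset α, (∀ j ∈ s, f j ⊆ K ∧ (f j).card = k) ∧
      ∀ i ∈ s, ∀ j ∈ s, i ≠ j → Disjoint (f i) (f j) := by
  induction s using Finset.induction_on with
  | empty => exact fun _ => ⟨fun _ => ∅, by simp, by simp⟩
  | insert a s ha ih =>
    intro h
    rw [card_insert_of_notMem ha, add_mul, one_mul] at h
    obtain ⟨f, hf1, hf2⟩ := ih (by omega)
    set U := s.biUnion f with hU
    have hUK : U ⊆ K := biUnion_subset.mpr fun j hj => (hf1 j hj).1
    have hUc : U.card ≤ s.card * k := by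
      refine card_biUnion_le.trans ?_
      rw [sum_congr rfl fun j hj => (hf1 j hj).2, sum_const, smul_eq_mul]
    have hKU : k ≤ (K \ U).card := by
      rw [card_sdiff_of_subset hUK]
      omega
    obtain ⟨R, hR1, hR2⟩ := exists_subset_card_eq hKU
    refine ⟨fun j => if j = a then R else f j, ?_, ?_⟩
    · intro j hj
      by_cases hja : j = a
      · simp only [if_pos hja]
        exact ⟨hR1.trans sdiff_subset, hR2⟩
      · simp only [if_neg hja]
        exact hf1 j ((mem_insert.mp hj).resolve_left hja)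
    · have hdis : ∀ j ∈ s, Disjoint (f j) R := by
        intro j hj
        refine disjoint_left.mpr fun x hx hxR => ?_
        exact (mem_sdiff.mp (hR1 hxR)).2 (mem_biUnion.mpr ⟨j, hj, hx⟩)
      intro i hi j hj hij
      by_cases hia : i = a
      · have hja : j ≠ a := fun h => hij (hia.trans h.symm)
        simp only [if_pos hia, if_neg hja]
        exact (hdis j ((mem_insert.mp hj).resolve_left hja)).symm
      · by_cases hja : j = a
        · simp only [if_neg hia, if_pos hja]
          exact hdis i ((mem_insert.mp hi).resolve_left hia)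
        · simp only [if_neg hia, if_neg hja]
          exact hf2 i ((mem_insert.mp hi).resolve_left hia) j
            ((mem_insert.mp hj).resolve_left hja) hij

/-- (Y3) -/
theorem yes_of_bundles (hn : 2 ≤ n) (v : Fin n → Fin m → ℕ) (b : Fin n → Fin m → ℝ)
    (hb0 : ∀ j o, 0 ≤ b j o) (hb1 : ∀ o, ∑ j, b j o = 1) (J : Finset (Fin n)) (hJ : J.Nonempty)
    (hint : ∀ j ∈ J, ∀ o, b j o = 0 ∨ b j o = 1)
    (hacc : ∀ j, ∃ i, Acc v i (b j)) (a : Fin n → Fin n)
    (ha : ∀ j, j ∉ J → Acc v (a j) (b j)) (hinj : Set.InjOn a {j | j ∉ J}) : Yes v (n - 2) :=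
  yes_of_bundles' (fun v j K => yes_of_satRest hn v j K) hn v b hb0 hb1 J hJ hint hacc a ha hinj

/-- (F) If a proper set `L` of agents can be satisfied from the objects outside `K`, where `K` is a
set of `(n - |L|) k` objects of `T`, and the instance is uniform, then there is an allocation. -/
theorem yes_of_satSet (hn : 3 ≤ n) (v : Fin n → Fin m → ℕ) {k : ℕ} (hk : 1 ≤ k)
    {T : Finset (Fin m)} (hT : T.card = n * k - 1) (hU : Uniform v k T) (L : Finset (Fin n))
    (hL : L ≠ univ) (K : Finset (Fin m)) (hK : K ⊆ T) (hc : (n - L.card) * k ≤ K.card)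
    (h : SatSet v L K) : Yes v (n - 2) := by
  classical
  obtain ⟨z, hz0, hz1, hz2⟩ := h
  -- `L` is not empty
  have hLne : L.Nonempty := by
    rw [nonempty_iff_ne_empty]
    rintro rfl
    rw [card_empty, Nat.sub_zero] at hc
    have h1 := card_le_card hK
    have h2 : 1 ≤ n * k := Nat.mul_pos (by omega) hk
    omega
  obtain ⟨a₀, ha₀⟩ := hLne
  have hcomp : (univ \ L).card = n - L.card := by
    rw [card_sdiff_of_subset (subset_univ L), card_univ, Fintype.card_fin]
  have hJ : (univ \ L).Nonempty := by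
    rw [nonempty_iff_ne_empty]
    intro he
    exact hL (eq_univ_of_forall fun x => by
      by_contra hx
      have : x ∈ univ \ L := mem_sdiff.mpr ⟨mem_univ x, hx⟩
      rw [he] at this
      exact notMem_empty _ this)
  obtain ⟨f, hf1, hf2⟩ := exists_disjoint_parts k K (univ \ L) (by rw [hcomp]; exact hc)
  have hmemJ : ∀ j, j ∈ univ \ L ↔ j ∉ L := fun j => by simp
  set U : Finset (Fin m) := (univ \ L).biUnion f with hUdef
  have hUK : U ⊆ K := biUnion_subset.mpr fun j hj => (hf1 j hj).1
  have hzK : ∀ i ∈ L, ∀ o ∈ K, z i o = 0 := by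
    intro i hi o ho
    have h1 := hz1 o
    rw [if_pos ho] at h1
    exact le_antisymm ((single_le_sum (f := fun i => z i o) (fun i _ => hz0 i o) hi).trans h1)
      (hz0 i o)
  have hle1 : ∀ o, ∑ i ∈ L, z i o ≤ 1 := by
    intro o
    refine (hz1 o).trans ?_
    split_ifs <;> norm_num
  -- the bundles
  set b : Fin n → Fin m → ℝ := fun j o =>
    if j ∈ L then (if o ∈ U then 0 else z j o + if j = a₀ then 1 - ∑ i ∈ L, z i o else 0)
    else if o ∈ f j then 1 else 0 with hb
  have hbL : ∀ j ∈ L, ∀ o, b j o =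
      if o ∈ U then 0 else z j o + if j = a₀ then 1 - ∑ i ∈ L, z i o else 0 := by
    intro j hj o
    simp only [hb, if_pos hj]
  have hbN : ∀ j, j ∉ L → ∀ o, b j o = if o ∈ f j then 1 else 0 := by
    intro j hj o
    simp only [hb, if_neg hj]
  have hbz : ∀ j ∈ L, ∀ o, z j o ≤ b j o := by
    intro j hj o
    rw [hbL j hj o]
    split_ifs with h1 h2
    · exact (hzK j hj o (hUK h1)).le
    · have := hle1 o
      linarith
    · linarith
  refine yes_of_bundles (by omega) v b ?_ ?_ (univ \ L) hJ ?_ ?_ id ?_ (Set.injOn_id _)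
  · intro j o
    by_cases hj : j ∈ L
    · exact (hz0 j o).trans (hbz j hj o)
    · rw [hbN j hj o]
      split_ifs <;> norm_num
  · intro o
    rw [← sum_sdiff (subset_univ L)]
    by_cases ho : o ∈ U
    · have e2 : ∑ j ∈ L, b j o = 0 := sum_eq_zero fun j hj => by rw [hbL j hj o, if_pos ho]
      obtain ⟨j₀, hj₀, hoj⟩ := mem_biUnion.mp ho
      have e1 : ∑ j ∈ univ \ L, b j o = 1 := by
        rw [sum_eq_single_of_mem j₀ hj₀]
        · rw [hbN j₀ ((hmemJ j₀).mp hj₀) o, if_pos hoj]
        · intro j hj hne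
          rw [hbN j ((hmemJ j).mp hj) o, if_neg]
          intro hoj'
          exact disjoint_left.mp (hf2 j hj j₀ hj₀ hne) hoj' hoj
      rw [e1, e2, add_zero]
    · have e1 : ∑ j ∈ univ \ L, b j o = 0 := by
        refine sum_eq_zero fun j hj => ?_
        rw [hbN j ((hmemJ j).mp hj) o, if_neg]
        exact fun hoj => ho (mem_biUnion.mpr ⟨j, hj, hoj⟩)
      have e2 : ∑ j ∈ L, b j o = 1 := by
        rw [sum_congr rfl fun j hj => by rw [hbL j hj o, if_neg ho], sum_add_distrib,
          sum_ite_eq' L a₀, if_pos ha₀]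
        ring
      rw [e1, e2, zero_add]
  · intro j hj o
    rw [hbN j ((hmemJ j).mp hj) o]
    split_ifs
    · exact Or.inr rfl
    · exact Or.inl rfl
  · intro j
    by_cases hj : j ∈ L
    · refine ⟨j, ?_⟩
      have := hz2 j hj
      unfold Acc at this ⊢
      exact this.trans (sum_le_sum fun o _ =>
        mul_le_mul_of_nonneg_left (hbz j hj o) (Nat.cast_nonneg _))
    · have hj' := (hmemJ j).mpr hj
      obtain ⟨i, hi⟩ := (hU (f j)).mpr (by
        rw [inter_eq_left.mpr ((hf1 j hj').1.trans hK), (hf1 j hj').2])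
      refine ⟨i, ?_⟩
      unfold AccS at hi
      unfold Acc
      refine hi.trans (le_of_eq ?_)
      rw [← sum_filter_add_sum_filter_not univ (fun o => o ∈ f j)]
      have e1 : ∑ o ∈ univ.filter (fun o => o ∈ f j), (v i o : ℝ) * b j o =
          ∑ o ∈ f j, (v i o : ℝ) := by
        rw [filter_mem_eq_inter, univ_inter]
        exact sum_congr rfl fun o ho => by rw [hbN j hj o, if_pos ho, mul_one]
      have e2 : ∑ o ∈ univ.filter (fun o => ¬ o ∈ f j), (v i o : ℝ) * b j o = 0 :=
        sum_eq_zero fun o ho => by rw [hbN j hj o, if_neg (mem_filter.mp ho).2, mul_zero]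
      rw [e1, e2, add_zero]
  · intro j hj
    have hjL : j ∈ L := by
      by_contra hc
      exact hj ((hmemJ j).mpr hc)
    have := hz2 j hjL
    unfold Acc at this ⊢
    exact this.trans (sum_le_sum fun o _ =>
      mul_le_mul_of_nonneg_left (hbz j hjL o) (Nat.cast_nonneg _))

end Pool.Agent.FairDivP
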