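import Mathlib

/-!
# Few owners: the support of a minimal solution has at most `l + m - 1` entries
-/

namespace Pool.Agent.FairDivP

open Finset

/-- the support of an allocation -/
noncomputable def supp {ι ω : Type} [Fintype ι] [Fintype ω] (z : ι → ω → ℝ) : Finset (ι × ω) :=
  univ.filter fun p => z p.1 p.2 ≠ 0

theorem mem_supp {ι ω : Type} [Fintype ι] [Fintype ω] {z : ι → ω → ℝ} {p : ι × ω} :
    p ∈ supp z ↔ z p.1 p.2 ≠ 0 := by
  simp [supp]

/-- `z'` is an allocation which gives at least the utilities of `z` -/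
structure Better {ι ω : Type} [Fintype ι] [Fintype ω] (v z z' : ι → ω → ℝ) : Prop where
  nonneg : ∀ i o, 0 ≤ z' i o
  col : ∀ o, ∑ i, z' i o = 1
  le : ∀ i, ∑ o, v i o * z i o ≤ ∑ o, v i o * z' i o

section
variable {ι ω : Type} [Fintype ι] [Fintype ω] {v z : ι → ω → ℝ}

theorem Better.refl (h0 : ∀ i o, 0 ≤ z i o) (h1 : ∀ o, ∑ i, z i o = 1) : Better v z z :=
  ⟨h0, h1, fun _ => le_rfl⟩

theorem Better.trans {z' z'' : ι → ω → ℝ} (h : Better v z z') (h' : Better v z' z'') :
    Better v z z'' :=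
  ⟨h'.nonneg, h'.col, fun i => (h.le i).trans (h'.le i)⟩

/-- moving along a direction which keeps the columns, decreases no utility and vanishes off the
support makes the support smaller -/
theorem exists_smaller (h0 : ∀ i o, 0 ≤ z i o) (h1 : ∀ o, ∑ i, z i o = 1) (D : ι → ω → ℝ)
    (hD0 : ∀ i o, z i o = 0 → D i o = 0) (hDcol : ∀ o, ∑ i, D i o = 0)
    (hDu : ∀ i, 0 ≤ ∑ o, v i o * D i o) (hneg : ∃ p : ι × ω, D p.1 p.2 < 0) :
    ∃ z', Better v z z' ∧ (supp z').card < (supp z).card := by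
  classical
  let P : Finset (ι × ω) := univ.filter fun p => D p.1 p.2 < 0
  obtain ⟨p1, hp1, hmin⟩ := exists_min_image P (fun p => z p.1 p.2 / (-D p.1 p.2))
    (by obtain ⟨p, hp⟩ := hneg; exact ⟨p, mem_filter.2 ⟨mem_univ _, hp⟩⟩)
  have hp1' : D p1.1 p1.2 < 0 := (mem_filter.1 hp1).2
  set s : ℝ := z p1.1 p1.2 / (-D p1.1 p1.2) with hs
  have hs0 : 0 ≤ s := div_nonneg (h0 _ _) (neg_nonneg.2 hp1'.le)
  have hsD : z p1.1 p1.2 + s * D p1.1 p1.2 = 0 := by
    have hne : D p1.1 p1.2 ≠ 0 := hp1'.ne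
    rw [hs]
    field_simp
    ring
  refine ⟨fun i o => z i o + s * D i o, ⟨?_, ?_, ?_⟩, ?_⟩
  · intro i o
    by_cases hD : D i o < 0
    · have h3 : s ≤ z i o / (-D i o) := hmin (i, o) (mem_filter.2 ⟨mem_univ _, hD⟩)
      rw [le_div_iff₀ (neg_pos.2 hD)] at h3
      linarith
    · have h3 : 0 ≤ s * D i o := mul_nonneg hs0 (not_lt.1 hD)
      linarith [h0 i o]
  · intro o
    rw [sum_add_distrib, ← mul_sum, hDcol, h1, mul_zero, add_zero]
  · intro i
    have e : ∑ o, v i o * (z i o + s * D i o) = ∑ o, v i o * z i o + s * ∑ o, v i o * D i o := by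
      rw [mul_sum, ← sum_add_distrib]
      exact sum_congr rfl fun o _ => by ring
    rw [e]
    linarith [mul_nonneg hs0 (hDu i)]
  · apply card_lt_card
    rw [ssubset_iff_of_subset]
    · refine ⟨p1, mem_supp.2 fun h => ?_, fun h => mem_supp.1 h hsD⟩
      rw [hD0 _ _ h] at hp1'
      exact lt_irrefl _ hp1'
    · intro p hp
      refine mem_supp.2 fun h => mem_supp.1 hp ?_
      rw [hD0 _ _ h, h, mul_zero, add_zero]

/-- a support with at least `l + m` entries can be made smaller -/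
theorem exists_smaller_of_card [Nonempty ι] (h0 : ∀ i o, 0 ≤ z i o) (h1 : ∀ o, ∑ i, z i o = 1)
    (hc : Fintype.card ι + Fintype.card ω ≤ (supp z).card) :
    ∃ z', Better v z z' ∧ (supp z').card < (supp z).card := by
  classical
  obtain ⟨i0⟩ := ‹Nonempty ι›
  -- the linear map: column sums and utilities of the agents other than `i0`
  let ext : ((supp z) → ℝ) →ₗ[ℝ] (ι → ω → ℝ) :=
    { toFun := fun t i o => if h : (i, o) ∈ supp z then t ⟨(i, o), h⟩ else 0
      map_add' := by
        intro a b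
        funext i o
        by_cases h : (i, o) ∈ supp z <;> simp [h]
      map_smul' := by
        intro r a
        funext i o
        by_cases h : (i, o) ∈ supp z <;> simp [h] }
  let F : ((supp z) → ℝ) →ₗ[ℝ] ((ω → ℝ) × ({i : ι // i ≠ i0} → ℝ)) :=
    { toFun := fun t => (fun o => ∑ i, ext t i o, fun i => ∑ o, v i o * ext t i o)
      map_add' := by
        intro a b
        ext x <;> simp [sum_add_distrib, mul_add]
      map_smul' := by
        intro r a
        ext x
        · simp [mul_sum]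
        · simp only [map_smul, Pi.smul_apply, smul_eq_mul, RingHom.id_apply, Prod.smul_mk, mul_sum]
          exact sum_congr rfl fun o _ => by ring }
  have hfin : Module.finrank ℝ ((ω → ℝ) × ({i : ι // i ≠ i0} → ℝ)) <
      Module.finrank ℝ ((supp z) → ℝ) := by
    rw [Module.finrank_prod, Module.finrank_pi, Module.finrank_pi, Module.finrank_pi,
      Fintype.card_coe]
    have : Fintype.card {i : ι // i ≠ i0} + 1 = Fintype.card ι := by
      have h2 := Fintype.card_subtype_compl (fun i : ι => i = i0)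
      have h3 : Fintype.card {i : ι // i = i0} = 1 := Fintype.card_subtype_eq i0
      have h4 : 0 < Fintype.card ι := Fintype.card_pos_iff.2 ⟨i0⟩
      have h5 : Fintype.card {i : ι // ¬ i = i0} = Fintype.card {i : ι // i ≠ i0} := rfl
      omega
    omega
  have hker := LinearMap.ker_ne_bot_of_finrank_lt (f := F) hfin
  obtain ⟨t, htk, ht0⟩ := (Submodule.ne_bot_iff _).1 hker
  have hF : F t = 0 := htk
  have hcol : ∀ o, ∑ i, ext t i o = 0 := fun o => congrFun (congrArg Prod.fst hF) o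
  have hut : ∀ i, i ≠ i0 → ∑ o, v i o * ext t i o = 0 := fun i hi =>
    congrFun (congrArg Prod.snd hF) ⟨i, hi⟩
  have hext0 : ∀ i o, z i o = 0 → ext t i o = 0 := by
    intro i o h
    have : (i, o) ∉ supp z := fun h' => mem_supp.1 h' h
    change (if h : (i, o) ∈ supp z then t ⟨(i, o), h⟩ else 0) = 0
    rw [dif_neg this]
  obtain ⟨p, hp⟩ : ∃ p : ι × ω, ext t p.1 p.2 ≠ 0 := by
    obtain ⟨q, hq⟩ : ∃ q, t q ≠ 0 := by
      by_contra hno
      push Not at hno
      exact ht0 (funext hno)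
    refine ⟨q.1, ?_⟩
    change (if h : (q.1.1, q.1.2) ∈ supp z then t ⟨(q.1.1, q.1.2), h⟩ else 0) ≠ 0
    rw [dif_pos q.2]
    exact hq
  -- a negative entry for both signs
  have hnegpos : ∀ (D : ι → ω → ℝ), (∀ o, ∑ i, D i o = 0) → (∃ p : ι × ω, D p.1 p.2 ≠ 0) →
      ∃ p : ι × ω, D p.1 p.2 < 0 := by
    rintro D hD ⟨p, hp⟩
    by_contra hno
    push Not at hno
    have := (sum_eq_zero_iff_of_nonneg (fun i _ => hno (i, p.2))).1 (hD p.2) p.1 (mem_univ _)
    exact hp this
  rcases le_total 0 (∑ o, v i0 o * ext t i0 o) with hs | hs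
  · refine exists_smaller h0 h1 (ext t) hext0 hcol (fun i => ?_) (hnegpos _ hcol ⟨p, hp⟩)
    by_cases hi : i = i0
    · rw [hi]; exact hs
    · rw [hut i hi]
  · have hcol' : ∀ o, ∑ i, -ext t i o = 0 := fun o => by rw [sum_neg_distrib, hcol, neg_zero]
    refine exists_smaller h0 h1 (fun i o => -ext t i o) (fun i o h => ?_) hcol' (fun i => ?_)
      (hnegpos _ hcol' ⟨p, neg_ne_zero.2 hp⟩)
    · rw [hext0 i o h, neg_zero]
    · have e : ∑ o, v i o * -ext t i o = -∑ o, v i o * ext t i o := by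
        rw [← sum_neg_distrib]
        exact sum_congr rfl fun o _ => by ring
      rw [e]
      by_cases hi : i = i0
      · rw [hi]; exact neg_nonneg.2 hs
      · rw [hut i hi, neg_zero]

/-- an agent who does not value a shared object can give away his share -/
theorem exists_smaller_of_zero (hv : ∀ i o, 0 ≤ v i o) (h0 : ∀ i o, 0 ≤ z i o)
    (h1 : ∀ o, ∑ i, z i o = 1) {i : ι} {o : ω} (hz0 : z i o ≠ 0) (hz1 : z i o ≠ 1)
    (hvi : v i o = 0) :
    ∃ z', Better v z z' ∧ (supp z').card < (supp z).card := by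
  classical
  have hi : 0 < z i o := lt_of_le_of_ne (h0 i o) hz0.symm
  obtain ⟨k, hk, hk'⟩ : ∃ k, k ≠ i ∧ 0 < z k o := by
    by_contra hno
    push Not at hno
    have h2 : ∑ k, z k o = z i o :=
      sum_eq_single i (fun k _ hk => le_antisymm (hno k hk) (h0 k o))
        (fun h => absurd (mem_univ i) h)
    exact hz1 (h2.symm.trans (h1 o))
  let D : ι → ω → ℝ := fun a b =>
    if b = o then ((if a = k then (1 : ℝ) else 0) - if a = i then 1 else 0) else 0
  refine exists_smaller h0 h1 D ?_ ?_ ?_ ⟨(i, o), ?_⟩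
  · intro a b hab
    by_cases hb : b = o
    · subst hb
      have e1 : a ≠ k := fun h => by rw [h] at hab; exact hk'.ne' hab
      have e2 : a ≠ i := fun h => by rw [h] at hab; exact hi.ne' hab
      simp [D, e1, e2]
    · simp [D, hb]
  · intro b
    by_cases hb : b = o
    · simp [D, hb]
    · simp [D, hb]
  · intro a
    refine sum_nonneg fun b _ => ?_
    by_cases hb : b = o
    · subst hb
      by_cases ha : a = i
      · subst ha
        simp [hvi]
      · simp only [D, if_true, if_neg ha, sub_zero]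
        refine mul_nonneg (hv _ _) ?_
        split_ifs <;> norm_num
    · simp [D, hb]
  · simp [D, hk.symm]

/-- **few edges**, for a solution of minimal support -/
theorem few_edges_of_min [Nonempty ι] (hv : ∀ i o, 0 ≤ v i o) (h0 : ∀ i o, 0 ≤ z i o)
    (h1 : ∀ o, ∑ i, z i o = 1) (hmin : ∀ z', Better v z z' → (supp z).card ≤ (supp z').card) :
    (supp z).card + 1 ≤ Fintype.card ι + Fintype.card ω ∧
      ∀ i o, z i o ≠ 0 → z i o ≠ 1 → 0 < v i o := by
  constructor
  · by_contra hc
    obtain ⟨z', hb, hlt⟩ := exists_smaller_of_card (v := v) h0 h1 (by omega)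
    exact absurd (hmin z' hb) (not_le.2 hlt)
  · intro i o hz0 hz1
    refine lt_of_le_of_ne (hv i o) fun h => ?_
    obtain ⟨z', hb, hlt⟩ := exists_smaller_of_zero hv h0 h1 hz0 hz1 h.symm
    exact absurd (hmin z' hb) (not_le.2 hlt)

/-- existence of a solution of minimal support -/
theorem exists_min_supp (h0 : ∀ i o, 0 ≤ z i o) (h1 : ∀ o, ∑ i, z i o = 1) :
    ∃ z', Better v z z' ∧ ∀ z'', Better v z' z'' → (supp z').card ≤ (supp z'').card := by
  classical
  have hne : ∃ N, ∃ z', Better v z z' ∧ (supp z').card = N := ⟨_, z, Better.refl h0 h1, rfl⟩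
  obtain ⟨z', hb, hN⟩ := Nat.find_spec hne
  refine ⟨z', hb, fun z'' hb' => ?_⟩
  rw [hN]
  exact Nat.find_min' hne ⟨z'', hb.trans hb', rfl⟩

/-- **few edges** -/
theorem few_edges [Nonempty ι] (hv : ∀ i o, 0 ≤ v i o) (h0 : ∀ i o, 0 ≤ z i o)
    (h1 : ∀ o, ∑ i, z i o = 1) :
    ∃ z', Better v z z' ∧ (supp z').card + 1 ≤ Fintype.card ι + Fintype.card ω ∧
      ∀ i o, z' i o ≠ 0 → z' i o ≠ 1 → 0 < v i o := by
  obtain ⟨z', hb, hmin⟩ := exists_min_supp (v := v) h0 h1
  exact ⟨z', hb, few_edges_of_min hv hb.nonneg hb.col hmin⟩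

end

end Pool.Agent.FairDivP
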