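import Pool.Agent.Lib_MP_42f051_lc_p.Cert

/-!
# PROP-SharedObj(n, n - 2): in a proportional allocation some agent holds `k` objects of `T`
-/

namespace Pool.Agent.FairDivP

open Pool.Agent.FairDiv Pool.Agent.FairDivS Finset

variable {n m : ℕ}

/-- (HEAVY) -/
theorem satSet_of_yes (hn : 3 ≤ n) (v : Fin n → Fin m → ℕ) (h : Yes v (n - 2)) {k : ℕ} (hk : 1 ≤ k)
    {T : Finset (Fin m)} (hT : T.card = n * k - 1) :
    ∃ (L : Finset (Fin n)) (K : Finset (Fin m)), L.card = n - 1 ∧ K ⊆ T ∧ K.card = k ∧
      SatSet v L K := by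
  classical
  obtain ⟨z, hz, hp, hs⟩ := h
  unfold sharedObj at hs
  have hle : ∀ i o, z i o ≤ 1 := fun i o => by
    rw [← hz.total o]
    exact single_le_sum (f := fun i => z i o) (fun i _ => hz.nonneg i o) (mem_univ i)
  have hex : ∃ i, k ≤ (T.filter fun o => z i o = 1).card := by
    by_contra hcon
    push Not at hcon
    have h1 : T ⊆ (univ.filter fun o => ∃ i, 0 < z i o ∧ z i o < 1) ∪
        univ.biUnion (fun i => T.filter fun o => z i o = 1) := by
      intro o ho
      rw [mem_union]
      by_cases h0 : ∃ i, 0 < z i o ∧ z i o < 1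
      · exact Or.inl (mem_filter.2 ⟨mem_univ _, h0⟩)
      · right
        push Not at h0
        have h2 : ∃ i, 0 < z i o := by
          by_contra h3
          push Not at h3
          have h4 : ∑ i, z i o ≤ 0 := sum_nonpos fun i _ => h3 i
          rw [hz.total o] at h4
          linarith
        obtain ⟨i, hi⟩ := h2
        exact mem_biUnion.2 ⟨i, mem_univ _, mem_filter.2 ⟨ho, le_antisymm (hle i o) (h0 i hi)⟩⟩
    have h2 : T.card ≤ (n - 2) + n * (k - 1) := by
      refine (card_le_card h1).trans ((card_union_le _ _).trans (Nat.add_le_add hs ?_))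
      refine card_biUnion_le.trans ?_
      refine (sum_le_card_nsmul _ _ (k - 1) (fun i _ => ?_)).trans ?_
      · have := hcon i
        omega
      · simp
    rw [hT] at h2
    obtain ⟨k', rfl⟩ : ∃ k', k = k' + 1 := ⟨k - 1, by omega⟩
    rw [Nat.add_sub_cancel, Nat.mul_succ] at h2
    omega
  obtain ⟨i, hi⟩ := hex
  obtain ⟨K, hKs, hKc⟩ := exists_subset_card_eq hi
  refine ⟨univ.erase i, K, ?_, fun o ho => (mem_filter.1 (hKs ho)).1, hKc, z, hz.nonneg, ?_, ?_⟩
  · rw [card_erase_of_mem (mem_univ i), card_univ, Fintype.card_fin]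
  · intro o
    have h1 : z i o + ∑ j ∈ univ.erase i, z j o = 1 :=
      (add_sum_erase _ (fun j => z j o) (mem_univ i)).trans (hz.total o)
    split_ifs with ho
    · have := (mem_filter.1 (hKs ho)).2
      linarith
    · have := hz.nonneg i o
      linarith
  · intro j _
    exact hp j

end Pool.Agent.FairDivP
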