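import Pool.Agent.Lib_MP_42f051_uni.General

/-!
# (COMB) the theorem on uniform games in the form used for the criterion
-/

namespace Pool.Agent.FairDivP

open Finset

variable {n : ℕ}

/-- (COMB) -/
theorem uniform {α : Type} [Fintype α] [DecidableEq α] (hn : 3 ≤ n) (L : Finset α → Prop)
    (hup : ∀ A B, A ⊆ B → L A → L B)
    (hb : ∀ f : Fin n → Finset α, (∀ i j, i ≠ j → Disjoint (f i) (f j)) → ∃ i, ¬ L (f i))
    (hc : ∀ X : Finset α, X.card ≤ n - 2 → ∀ c : α → Fin n,
      ∃ j, L (univ.filter fun o => o ∉ X ∧ c o = j)) :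
    ∃ k, 1 ≤ k ∧ ∃ T : Finset α, T.card = n * k - 1 ∧ ∀ R, L R ↔ k ≤ (R ∩ T).card := by
  have hG : MP42f051U.Gn n (univ : Finset α) L := by
    refine ⟨fun A B hAB _ hA => hup A B hAB hA, ?_, ?_⟩
    · intro A _ lA hd
      obtain ⟨i, hi⟩ := hb A hd
      exact hi (lA i)
    · intro A _ lA
      by_contra hlt
      push Not at hlt
      classical
      have hn0 : 0 < n := by omega
      have hcol : ∀ o : α, ∃ i : Fin n, o ∈ univ.biUnion A → o ∈ A i := by
        intro o
        by_cases ho : o ∈ univ.biUnion A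
        · obtain ⟨i, -, hi⟩ := mem_biUnion.1 ho
          exact ⟨i, fun _ => hi⟩
        · exact ⟨⟨0, hn0⟩, fun h => absurd h ho⟩
      choose c hc' using hcol
      obtain ⟨j, hj⟩ := hc (univ \ univ.biUnion A) (by omega) c
      refine lA j (hup _ _ ?_ hj)
      intro o ho
      simp only [mem_filter, mem_univ, true_and, mem_sdiff, not_not] at ho
      have := hc' o ho.1
      rwa [ho.2] at this
  obtain ⟨k, T, hk, -, hT, hU⟩ := MP42f051U.Gn.uniform n hn univ L hG
  exact ⟨k, hk, T, by omega, fun R => hU R (subset_univ R)⟩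

end Pool.Agent.FairDivP
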