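import Pool.Agent.Lib_MP_42f051_lc_p.Cert
import Pool.Agent.Lib_MP_42f051_lc_p.Comb
import Pool.Agent.Lib_MP_42f051_lc_p.Y12
import Pool.Agent.Lib_MP_42f051_lc_p.Y3
import Pool.Agent.Lib_MP_42f051_alg.Chain

/-!
# (UNI) in a NO instance the accepted sets are a uniform game
-/

namespace Pool.Agent.FairDivP

open Pool.Agent.FairDiv Pool.Agent.FairDivS Finset

variable {n m : ℕ}

theorem accS_mono (v : Fin n → Fin m → ℕ) (i : Fin n) {A B : Finset (Fin m)} (h : A ⊆ B)
    (hA : AccS v i A) : AccS v i B :=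
  hA.trans (sum_le_sum_of_subset_of_nonneg h fun _ _ _ => Nat.cast_nonneg _)

theorem yes_mono {v : Fin n → Fin m → ℕ} {s t : ℕ} (hst : s ≤ t) (h : Yes v s) : Yes v t := by
  obtain ⟨z, h1, h2, h3⟩ := h
  exact ⟨z, h1, h2, h3.trans hst⟩

/-- (b) no `n` pairwise disjoint accepted sets in a NO instance -/
theorem yes_of_disjoint (hn : 2 ≤ n) (v : Fin n → Fin m → ℕ) (f : Fin n → Finset (Fin m))
    (hd : ∀ i j, i ≠ j → Disjoint (f i) (f j)) (hf : ∀ j, ∃ i, AccS v i (f j)) :
    Yes v (n - 2) := by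
  classical
  have : NeZero n := ⟨by omega⟩
  -- the owner of an object
  have hex : ∀ o : Fin m, ∃ j : Fin n, ∀ j', o ∈ f j' → j' = j := by
    intro o
    by_cases ho : ∃ j, o ∈ f j
    · obtain ⟨j, hj⟩ := ho
      refine ⟨j, fun j' hj' => ?_⟩
      by_contra hne
      exact (disjoint_left.1 (hd j' j hne) hj') hj
    · push Not at ho
      exact ⟨0, fun j' hj' => absurd hj' (ho j')⟩
  choose c hc using hex
  refine yes_of_bundles' (fun v j K hj h => yes_of_satRest hn v j K hj h) hn v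
    (fun j o => if c o = j then 1 else 0) ?_ ?_ univ univ_nonempty ?_ ?_ id ?_ ?_
  · intro j o
    split_ifs <;> norm_num
  · intro o
    simp
  · intro j _ o
    by_cases h : c o = j
    · right; simp [h]
    · left; simp [h]
  · intro j
    obtain ⟨i, hi⟩ := hf j
    refine ⟨i, hi.trans ?_⟩
    have h1 : ∑ o ∈ f j, (v i o : ℝ) = ∑ o ∈ f j, (v i o : ℝ) * (if c o = j then 1 else 0) := by
      refine sum_congr rfl fun o ho => ?_
      rw [if_pos (hc o j ho).symm, mul_one]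
    rw [h1]
    refine sum_le_sum_of_subset_of_nonneg (subset_univ _) fun o _ _ => ?_
    split_ifs <;> simp
  · intro j hj
    exact absurd (mem_univ j) hj
  · intro x _ y _ h
    exact h

/-- (UNI) -/
theorem exists_uniform (hn : 3 ≤ n) (v : Fin n → Fin m → ℕ) (h : ¬ Yes v (n - 2)) :
    ∃ k, 1 ≤ k ∧ ∃ T : Finset (Fin m), T.card = n * k - 1 ∧ Uniform v k T := by
  refine uniform hn (fun R => ∃ i, AccS v i R) ?_ ?_ ?_
  · rintro A B hAB ⟨i, hi⟩
    exact ⟨i, accS_mono v i hAB hi⟩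
  · intro f hd
    by_contra hcon
    push Not at hcon
    exact h (yes_of_disjoint (by omega) v f hd hcon)
  · intro X hX c
    by_contra hcon
    push Not at hcon
    exact h (yes_mono hX (yes_of_rejected (by omega) v X c fun i j => hcon j i))

theorem someAcc_iff (hn : 1 ≤ n) (v : Fin n → Fin m → ℕ) (R : Finset (Fin m)) :
    FairDivA.SomeAcc v R ↔ ∃ i, AccS v i R := by
  unfold FairDivA.SomeAcc AccS fs FairDivA.tv FairDivA.sv
  have hn0 : (0 : ℝ) < n := by exact_mod_cast hn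
  refine exists_congr fun i => ?_
  rw [div_le_iff₀ hn0]
  constructor
  · intro h1
    have h2 : ((∑ o, v i o : ℕ) : ℝ) ≤ ((n * ∑ o ∈ R, v i o : ℕ) : ℝ) := by exact_mod_cast h1
    push_cast at h2
    linarith
  · intro h1
    have h2 : ((∑ o, v i o : ℕ) : ℝ) ≤ ((n * ∑ o ∈ R, v i o : ℕ) : ℝ) := by
      push_cast
      linarith
    exact_mod_cast h2

/-- (UNI) in the terms of the algorithm -/
theorem exists_uniform' (hn : 3 ≤ n) (v : Fin n → Fin m → ℕ) (h : ¬ Yes v (n - 2)) :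
    ∃ (k : ℕ) (T : Finset (Fin m)), 1 ≤ k ∧ T.card + 1 = n * k ∧
      ∀ R, FairDivA.SomeAcc v R ↔ k ≤ (R ∩ T).card := by
  obtain ⟨k, hk, T, hT, hU⟩ := exists_uniform hn v h
  refine ⟨k, T, hk, ?_, fun R => (someAcc_iff (by omega) v R).trans (hU R)⟩
  have : 3 * k ≤ n * k := Nat.mul_le_mul_right k hn
  omega

end Pool.Agent.FairDivP
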