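import Pool.Agent.Lib_MP_42f051_lc_p.Cert

/-!
# A certificate gives a set of agents which can be satisfied from few objects of `T`
-/

namespace Pool.Agent.FairDivP

open Pool.Agent.FairDiv Pool.Agent.FairDivS Finset

variable {n m : ℕ}

theorem Chain.D_subset {v : Fin n → Fin m → ℕ} {T : Finset (Fin m)} {L : Finset (Fin n)}
    {lam : Fin n → ℕ} {D : Finset (Fin m)} {P : ℕ} (h : Chain v T L lam D P) : D ⊆ T := by
  induction h with
  | single a => exact empty_subset _
  | add h b p X hb hp hX hXD h0 h1 ih => exact insert_subset hX ih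

theorem Chain.nonempty {v : Fin n → Fin m → ℕ} {T : Finset (Fin m)} {L : Finset (Fin n)}
    {lam : Fin n → ℕ} {D : Finset (Fin m)} {P : ℕ} (h : Chain v T L lam D P) : L.Nonempty := by
  induction h with
  | single a => exact singleton_nonempty a
  | add h b p X hb hp hX hXD h0 h1 ih => exact insert_nonempty b _

/-- The agents of a chain have the values `u` and want `s`. If the weighted sum of the values and the
prices of the shared objects reaches the weighted sum of the wishes, then some agents of the chain can
be satisfied with less than so many shared objects. -/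
theorem Chain.exists_shares {v : Fin n → Fin m → ℕ} {T : Finset (Fin m)} {L : Finset (Fin n)}
    {lam : Fin n → ℕ} {D : Finset (Fin m)} {P : ℕ} (h : Chain v T L lam D P) (s : Fin n → ℝ) :
    ∀ u : Fin n → ℝ, ∑ a ∈ L, (lam a : ℝ) * s a ≤ ∑ a ∈ L, (lam a : ℝ) * u a + P →
    ∃ J ⊆ L, ∃ E ⊆ D, E.card < J.card ∧ ∃ x : Fin n → Fin m → ℝ, (∀ a o, 0 ≤ x a o) ∧
      (∀ a o, o ∉ E → x a o = 0) ∧ (∀ o, ∑ a ∈ J, x a o ≤ 1) ∧
      ∀ a ∈ J, s a ≤ u a + ∑ o, (v a o : ℝ) * x a o := by
  classical
  induction h with
  | single a =>
    intro u hu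
    refine ⟨{a}, Subset.rfl, ∅, Subset.rfl, by simp, fun _ _ => 0, by simp, by simp, by simp, ?_⟩
    intro b hb
    rw [mem_singleton] at hb
    subst hb
    simpa using hu
  | @add L lam D P h b p X hb hp hX hXD h0 h1 ih =>
    intro u hu
    have hbp : p ≠ b := by
      rintro rfl
      exact hb hp
    have hw : (0 : ℝ) < v b X := by exact_mod_cast h0
    have hwp : (0 : ℝ) < v p X := by exact_mod_cast h1
    rw [sum_insert hb, sum_insert hb] at hu
    have e1 : ∀ f : Fin n → ℝ, ∑ a ∈ L, ((if a = b then lam p * v p X else lam a * v b X : ℕ) : ℝ) *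
        f a = (v b X : ℝ) * ∑ a ∈ L, (lam a : ℝ) * f a := by
      intro f
      rw [mul_sum]
      refine sum_congr rfl fun a ha => ?_
      rw [if_neg (fun e : a = b => hb (e ▸ ha))]
      push_cast
      ring
    rw [e1, e1] at hu
    simp only [if_true] at hu
    push_cast at hu
    by_cases hd0 : s b ≤ u b
    · refine ⟨{b}, by simp, ∅, empty_subset _, by simp, fun _ _ => 0, by simp, by simp, by simp, ?_⟩
      intro a ha
      rw [mem_singleton] at ha
      subst ha
      simpa using hd0
    rw [not_le] at hd0
    have hlp : (0 : ℝ) ≤ lam p := Nat.cast_nonneg _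
    by_cases hd1 : (v b X : ℝ) < s b - u b
    · obtain ⟨J, hJ, E, hE, hc, x, hx⟩ := ih u (by
        have h2 : (0 : ℝ) ≤ (lam p : ℝ) * v p X * (s b - u b - v b X) := by
          have : 0 ≤ s b - u b - (v b X : ℝ) := by linarith
          positivity
        have h3 : (v b X : ℝ) * ∑ a ∈ L, (lam a : ℝ) * s a ≤
            (v b X : ℝ) * (∑ a ∈ L, (lam a : ℝ) * u a + P) := by
          nlinarith
        exact le_of_mul_le_mul_left h3 hw)
      exact ⟨J, hJ.trans (subset_insert _ _), E, hE.trans (subset_insert _ _), hc, x, hx⟩
    rw [not_lt] at hd1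
    set q : ℝ := (s b - u b) / v b X with hq
    have hq0 : 0 ≤ q := div_nonneg (by linarith) hw.le
    have hq1 : q ≤ 1 := (div_le_one hw).2 hd1
    have hqw : (v b X : ℝ) * q = s b - u b := by
      rw [hq]
      field_simp
    obtain ⟨J, hJ, E, hE, hc, x, hx0, hxE, hx1, hx2⟩ := ih
      (fun a => if a = p then u p + (v p X : ℝ) * (1 - q) else u a) (by
        have h2 : ∑ a ∈ L, (lam a : ℝ) * (if a = p then u p + (v p X : ℝ) * (1 - q) else u a) =
            ∑ a ∈ L, (lam a : ℝ) * u a + (lam p : ℝ) * ((v p X : ℝ) * (1 - q)) := by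
          have h3 : ∀ a ∈ L, (lam a : ℝ) * (if a = p then u p + (v p X : ℝ) * (1 - q) else u a) =
              (lam a : ℝ) * u a + if a = p then (lam p : ℝ) * ((v p X : ℝ) * (1 - q)) else 0 := by
            intro a _
            split_ifs with e
            · subst e
              ring
            · ring
          rw [sum_congr rfl h3, sum_add_distrib, sum_ite_eq' L p, if_pos hp]
        rw [h2]
        have h3 : (v b X : ℝ) * ∑ a ∈ L, (lam a : ℝ) * s a ≤
            (v b X : ℝ) * (∑ a ∈ L, (lam a : ℝ) * u a + (lam p : ℝ) * ((v p X : ℝ) * (1 - q)) + P) := by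
          have h4 : (v b X : ℝ) * ((lam p : ℝ) * ((v p X : ℝ) * (1 - q))) =
              (lam p : ℝ) * v p X * (v b X - (s b - u b)) := by
            rw [← hqw]
            ring
          have h5 : (v b X : ℝ) * (∑ a ∈ L, (lam a : ℝ) * u a +
              (lam p : ℝ) * ((v p X : ℝ) * (1 - q)) + P) =
              (v b X : ℝ) * ∑ a ∈ L, (lam a : ℝ) * u a +
              (v b X : ℝ) * ((lam p : ℝ) * ((v p X : ℝ) * (1 - q))) + (v b X : ℝ) * P := by ring
          rw [h5, h4]
          linarith
        exact le_of_mul_le_mul_left h3 hw)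
    by_cases hpJ : p ∈ J
    · have hbJ : b ∉ J := fun hb' => hb (hJ hb')
      have hXE : X ∉ E := fun hX' => hXD (hE hX')
      refine ⟨insert b J, insert_subset_insert _ hJ, insert X E, insert_subset_insert _ hE, ?_,
        fun a o => if a = b then (if o = X then q else 0) else
          if a = p ∧ o = X then 1 - q else x a o, ?_, ?_, ?_, ?_⟩
      · rw [card_insert_of_notMem hbJ, card_insert_of_notMem hXE]
        omega
      · intro a o
        dsimp only
        split_ifs
        · exact hq0
        · exact le_rfl
        · linarith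
        · exact hx0 a o
      · intro a o ho
        rw [mem_insert, not_or] at ho
        simp only [ho.1, if_false, and_false, hxE a o ho.2, ite_self]
      · intro o
        rw [sum_insert hbJ]
        simp only [if_true]
        by_cases ho : o = X
        · subst ho
          simp only [if_true, and_true]
          have h2 : ∀ a ∈ J, (if a = b then q else if a = p then 1 - q else x a o) =
              if a = p then 1 - q else 0 := by
            intro a ha
            rw [if_neg (fun e : a = b => hbJ (e ▸ ha)), hxE a o hXE]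
          rw [sum_congr rfl h2, sum_ite_eq' J p, if_pos hpJ]
          linarith
        · simp only [ho, if_false, and_false]
          have h2 : ∀ a ∈ J, (if a = b then (0 : ℝ) else x a o) = x a o := by
            intro a ha
            rw [if_neg (fun e : a = b => hbJ (e ▸ ha))]
          rw [sum_congr rfl h2, zero_add]
          exact hx1 o
      · intro a ha
        rcases mem_insert.1 ha with e | ha
        · subst e
          simp only [if_true, mul_ite, mul_zero]
          rw [sum_ite_eq' univ X, if_pos (mem_univ X)]
          linarith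
        · have hab : a ≠ b := fun e => hbJ (e ▸ ha)
          simp only [if_neg hab]
          have h2 := hx2 a ha
          by_cases hap : a = p
          · subst hap
            simp only [if_true, true_and] at h2 ⊢
            have h3 : ∑ o, (v a o : ℝ) * (if o = X then 1 - q else x a o) =
                (v a X : ℝ) * (1 - q) + ∑ o, (v a o : ℝ) * x a o := by
              have h4 : ∀ o ∈ (univ : Finset (Fin m)), (v a o : ℝ) * (if o = X then 1 - q else x a o) =
                  (if o = X then (v a X : ℝ) * (1 - q) else 0) + (v a o : ℝ) * x a o := by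
                intro o _
                split_ifs with e
                · subst e
                  rw [hxE a o hXE]
                  ring
                · ring
              rw [sum_congr rfl h4, sum_add_distrib, sum_ite_eq' univ X, if_pos (mem_univ X)]
            rw [h3]
            linarith
          · simp only [hap, false_and, if_false] at h2 ⊢
            exact h2
    · refine ⟨J, hJ.trans (subset_insert _ _), E, hE.trans (subset_insert _ _), hc, x, hx0, hxE, hx1,
        ?_⟩
      intro a ha
      have h2 := hx2 a ha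
      have hap : a ≠ p := fun e => hpJ (e ▸ ha)
      simpa only [if_neg hap] using h2

/-- (CERT1) -/
theorem exists_satSet_of_cert (hn : 1 ≤ n) (v : Fin n → Fin m → ℕ) {k : ℕ} (hk : 1 ≤ k)
    {T : Finset (Fin m)} (hT : T.card = n * k - 1) (h : HasCert v T k) :
    ∃ (J : Finset (Fin n)) (K : Finset (Fin m)), J ≠ univ ∧ K ⊆ T ∧
      (n - J.card) * k ≤ K.card ∧ SatSet v J K := by
  classical
  obtain ⟨L, lam, D, P, hch, hL, S, hS, hdis, hin⟩ := h
  have hne : L.Nonempty := hch.nonempty
  have hw : ∀ o : Fin m, ∃ a ∈ L, L.sup (fun a => lam a * v a o) = lam a * v a o :=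
    fun o => exists_mem_eq_sup L hne _
  choose w hwL hw using hw
  have hn0 : (0 : ℝ) < n := by exact_mod_cast hn
  set u : Fin n → ℝ := fun a => ∑ o ∈ S a, (v a o : ℝ) +
    ∑ o ∈ (univ \ T).filter (fun o => w o = a), (v a o : ℝ) with hu
  have key : ∑ a ∈ L, (lam a : ℝ) * fs v a ≤ ∑ a ∈ L, (lam a : ℝ) * u a + P := by
    have h1 : ∑ a ∈ L, (lam a : ℝ) * u a = ∑ a ∈ L, ∑ o ∈ S a, (lam a : ℝ) * v a o +
        ∑ o ∈ univ \ T, ((L.sup (fun a => lam a * v a o) : ℕ) : ℝ) := by
      have h2 : ∑ o ∈ univ \ T, ((L.sup (fun a => lam a * v a o) : ℕ) : ℝ) =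
          ∑ a ∈ L, ∑ o ∈ (univ \ T).filter (fun o => w o = a), (lam a : ℝ) * v a o := by
        rw [← sum_fiberwise_of_maps_to (g := w) (t := L) (fun o _ => hwL o)]
        refine sum_congr rfl fun a _ => sum_congr rfl fun o ho => ?_
        rw [hw o, (mem_filter.1 ho).2]
        push_cast
        rfl
      rw [h2, ← sum_add_distrib]
      refine sum_congr rfl fun a _ => ?_
      rw [hu]
      simp only [mul_add, mul_sum]
    rw [h1]
    have h3 : (∑ a ∈ L, (lam a : ℝ) * ∑ o, (v a o : ℝ)) ≤
        n * (∑ a ∈ L, ∑ o ∈ S a, (lam a : ℝ) * v a o +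
          ∑ o ∈ univ \ T, ((L.sup (fun a => lam a * v a o) : ℕ) : ℝ) + P) := by
      exact_mod_cast hin
    have h4 : ∑ a ∈ L, (lam a : ℝ) * fs v a = (∑ a ∈ L, (lam a : ℝ) * ∑ o, (v a o : ℝ)) / n := by
      rw [sum_div]
      refine sum_congr rfl fun a _ => ?_
      unfold fs
      ring
    rw [h4, div_le_iff₀ hn0]
    linarith
  obtain ⟨J, hJ, E, hE, hc, x, hx0, hxE, hx1, hx2⟩ := hch.exists_shares (fs v) u key
  have hDT : D ⊆ T := hch.D_subset
  refine ⟨J, T \ (E ∪ J.biUnion S), ?_, sdiff_subset, ?_, ?_⟩
  · intro e
    exact hL (univ_subset_iff.1 (e ▸ hJ))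
  · have h1 : (J.biUnion S).card ≤ J.card * (k - 1) :=
      card_biUnion_le_card_mul _ _ _ fun a ha => (hS a (hJ ha)).2.le
    have h2 : (E ∪ J.biUnion S).card ≤ E.card + (J.biUnion S).card := card_union_le _ _
    have h3 : T.card - (E ∪ J.biUnion S).card ≤ (T \ (E ∪ J.biUnion S)).card := le_card_sdiff _ _
    have h4 : J.card ≤ n := by simpa using card_le_univ J
    obtain ⟨k', rfl⟩ : ∃ k', k = k' + 1 := ⟨k - 1, by omega⟩
    obtain ⟨c, hc'⟩ : ∃ c, n = J.card + c := ⟨n - J.card, by omega⟩
    have h5 : (n - J.card) * (k' + 1) = c * (k' + 1) := by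
      congr 1
      omega
    have h6 : n * (k' + 1) = J.card * k' + J.card + c * (k' + 1) := by
      have h7 : n * (k' + 1) = (J.card + c) * (k' + 1) := congrArg (· * (k' + 1)) hc'
      rw [h7]
      ring
    rw [h5]
    simp only [Nat.add_sub_cancel] at h1
    omega
  · refine ⟨fun a o => (if o ∈ S a then 1 else 0) + (if o ∉ T ∧ w o = a then 1 else 0) + x a o,
      ?_, ?_, ?_⟩
    · intro a o
      have := hx0 a o
      dsimp only
      split_ifs <;> linarith
    · intro o
      by_cases hoT : o ∈ T
      · have h0 : ∀ a ∈ J, (if o ∈ S a then (1 : ℝ) else 0) + (if o ∉ T ∧ w o = a then 1 else 0) +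
            x a o = (if o ∈ S a then 1 else 0) + x a o := by
          intro a _
          rw [if_neg (fun h : o ∉ T ∧ w o = a => h.1 hoT)]
          ring
        rw [sum_congr rfl h0, sum_add_distrib]
        by_cases hoE : o ∈ E
        · have h1 : ∀ a ∈ J, (if o ∈ S a then (1 : ℝ) else 0) = 0 := by
            intro a ha
            rw [if_neg]
            intro ho
            exact (mem_sdiff.1 ((hS a (hJ ha)).1 ho)).2 (hE hoE)
          rw [sum_congr rfl h1, sum_const_zero, zero_add, if_neg (by simp [hoT, hoE])]
          exact hx1 o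
        · have h1 : ∑ a ∈ J, x a o = 0 := sum_eq_zero fun a _ => hxE a o hoE
          rw [h1, add_zero]
          by_cases hoS : ∃ a ∈ J, o ∈ S a
          · obtain ⟨a, ha, hoa⟩ := hoS
            have h2 : ∀ b ∈ J, (if o ∈ S b then (1 : ℝ) else 0) = if b = a then 1 else 0 := by
              intro b hb
              by_cases e : b = a
              · subst e
                simp [hoa]
              · rw [if_neg e, if_neg]
                intro hob
                exact disjoint_left.1 (hdis b (hJ hb) a (hJ ha) e) hob hoa
            rw [sum_congr rfl h2, sum_ite_eq' J a, if_pos ha, if_neg]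
            intro ho
            exact (mem_sdiff.1 ho).2 (mem_union_right _ (mem_biUnion.2 ⟨a, ha, hoa⟩))
          · have h2 : ∑ b ∈ J, (if o ∈ S b then (1 : ℝ) else 0) = 0 :=
              sum_eq_zero fun b hb => if_neg fun hob => hoS ⟨b, hb, hob⟩
            rw [h2]
            split_ifs <;> norm_num
      · have h1 : ∀ a ∈ J, (if o ∈ S a then (1 : ℝ) else 0) + (if o ∉ T ∧ w o = a then 1 else 0) +
            x a o = if a = w o then 1 else 0 := by
          intro a ha
          rw [if_neg (fun ho => hoT (mem_sdiff.1 ((hS a (hJ ha)).1 ho)).1),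
            hxE a o (fun ho => hoT (hDT (hE ho)))]
          by_cases e : w o = a
          · rw [if_pos ⟨hoT, e⟩, if_pos e.symm]
            ring
          · rw [if_neg (fun h => e h.2), if_neg (fun h => e h.symm)]
            ring
        rw [sum_congr rfl h1, sum_ite_eq' J (w o), if_neg (fun h => hoT (mem_sdiff.1 h).1)]
        split_ifs <;> norm_num
    · intro a ha
      have h1 := hx2 a ha
      unfold Acc
      refine h1.trans (le_of_eq ?_)
      rw [hu]
      dsimp only
      have h2 : ∀ o ∈ (univ : Finset (Fin m)), (v a o : ℝ) * ((if o ∈ S a then 1 else 0) +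
          (if o ∉ T ∧ w o = a then 1 else 0) + x a o) =
          (if o ∈ S a then (v a o : ℝ) else 0) + (if o ∉ T ∧ w o = a then (v a o : ℝ) else 0) +
            (v a o : ℝ) * x a o := by
        intro o _
        split_ifs <;> ring
      rw [sum_congr rfl h2, sum_add_distrib, sum_add_distrib]
      congr 2
      · rw [← sum_filter]
        congr 1
        ext o
        simp
      · rw [← sum_filter]
        congr 1
        ext o
        simp

end Pool.Agent.FairDivP
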