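import Pool.Agent.Lib_MP_42fe4d_lc.CL.Sim

/-!
# Simulation of a TM2 machine with a polynomial clock
-/

namespace Pool.Agent.FairDivP

open Pool.Agent.PartSep Pool.Agent.PartSep.TM Pool.Agent.PartSep.TM.Rep Pool.Agent.PartSep.CL
open Pool.Agent.PartSep.CL.WM Turing

set_option synthInstance.maxSize 2000

/-- For a machine `tm` and a polynomial `q` there is a polynomial time function which gives the output
of `tm` for all the inputs on which `tm` halts within `q` steps. -/
theorem fp_clock (tm : FinTM2) (ein : tm.Γ tm.k₀ ≃ Bool) (eout : tm.Γ tm.k₁ ≃ Bool)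
    (q : Polynomial ℕ) :
    ∃ g : List Sym → List Sym, FP g ∧ ∀ w w' : List Bool,
      Nonempty (TM2OutputsInTime tm (w.map ein.invFun) (some (w'.map eout.invFun))
        (q.eval w.length)) → g (w.map bs) = w'.map bs := by
  let T : List Sym → ℕ := fun s => q.eval s.length
  refine ⟨fun s => (((wm tm).next^[T s] ((wm tm).initC tm.k₀ (some tm.main, tm.initialState)
    (inSym tm ein) (s.map sb) [])).2 tm.k₁).flatMap
      (fun g : GG tm tm.k₁ => [bs (eout g.1)]),
    fp_run (wm tm) (fun g : GG tm tm.k₁ => [bs (eout g.1)])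
      (FP.poly (FP.length FP.id) _) FP.id, fun w w' hw => ?_⟩
  obtain ⟨hout⟩ := hw
  simp only [map_sb_bs]
  have h1 : (flip bind tm.step)^[hout.steps] (some (toCfg tm ((wm tm).initC tm.k₀
      (some tm.main, tm.initialState) (inSym tm ein) w []))) =
      some (haltList tm (w'.map eout.invFun)) := by
    rw [toCfg_initC]
    have : w ++ vw [] = w := by simp [vw]
    rw [this]
    exact hout.evals_in_steps
  have hT : hout.steps ≤ T (w.map bs) := by
    refine hout.steps_le_m.trans ?_
    simp only [T, List.length_map]
    exact le_rfl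
  have h2 := toCfg_iterate_halt tm hT
    (D := haltList tm (w'.map eout.invFun)) rfl h1
  set C := (wm tm).next^[T (w.map bs)] ((wm tm).initC tm.k₀
      (some tm.main, tm.initialState) (inSym tm ein) w []) with hC
  have h3 : ((C.2 tm.k₁ : List (GG tm tm.k₁))).map Subtype.val =
      w'.map eout.invFun := by
    have := congrArg (fun D : tm.Cfg => D.stk tm.k₁) h2
    simpa [toCfg, haltList] using this
  have h4 : (C.2 tm.k₁ : List (GG tm tm.k₁)).flatMap
      (fun g : GG tm tm.k₁ => [bs (eout g.1)]) =
      ((C.2 tm.k₁ : List (GG tm tm.k₁)).map Subtype.val).map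
        (fun g => bs (eout g)) := by
    rw [List.map_map]
    exact flatMap_single _ _
  rw [h4, h3, List.map_map]
  congr 1
  funext b
  simp

end Pool.Agent.FairDivP
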