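import Mathlib
import Pool.Agent.Lib_MP_42f051_lc_s.SDefs

/-!
# PROP-SharedObj(n, n - 2): definitions
-/

namespace Pool.Agent.FairDivP

open Pool.Agent.FairDiv Pool.Agent.FairDivS

/-- The decision problem PROP-SharedObj(n, s). -/
def PropSharedObj (n s : ℕ) (y : List ℕ) : Prop :=
  ∃ z : Fin n → Fin (y.length / n) → ℝ, IsAlloc z ∧ IsProp (mat n y) z ∧ sharedObj z ≤ s

variable {n m : ℕ}

/-- the fair share of the agent `i` -/
noncomputable def fs (v : Fin n → Fin m → ℕ) (i : Fin n) : ℝ := (∑ o, (v i o : ℝ)) / n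

/-- the agent `i` accepts the bundle `r` (shares of the objects) -/
def Acc (v : Fin n → Fin m → ℕ) (i : Fin n) (r : Fin m → ℝ) : Prop :=
  fs v i ≤ ∑ o, (v i o : ℝ) * r o

/-- the agent `i` accepts the set `R` -/
def AccS (v : Fin n → Fin m → ℕ) (i : Fin n) (R : Finset (Fin m)) : Prop :=
  fs v i ≤ ∑ o ∈ R, (v i o : ℝ)

/-- the agents other than `j` can be satisfied from the objects outside `K`, if all these objects are
divisible -/
def SatRest (v : Fin n → Fin m → ℕ) (j : Fin n) (K : Finset (Fin m)) : Prop :=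
  ∃ z : Fin n → Fin m → ℝ, (∀ i o, 0 ≤ z i o) ∧
    (∀ o, ∑ i ∈ Finset.univ.erase j, z i o ≤ if o ∈ K then 0 else 1) ∧
    ∀ i, i ≠ j → Acc v i (z i)

/-- there is a proportional allocation with at most `s` shared objects -/
def Yes (v : Fin n → Fin m → ℕ) (s : ℕ) : Prop :=
  ∃ z : Fin n → Fin m → ℝ, IsAlloc z ∧ IsProp v z ∧ sharedObj z ≤ s

theorem propSharedObj_iff (n s : ℕ) (y : List ℕ) : PropSharedObj n s y ↔ Yes (mat n y) s := Iff.rfl

end Pool.Agent.FairDivP
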