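import Pool.Agent.Lib_MP_42f051_lc_p.Cert
import Pool.Agent.Lib_MP_42f051_lc_p.Edges

/-!
# Tree solutions

A minimal set `L` of agents which can be satisfied from the objects outside a set `K ⊆ T` with
`(n - |L|) k` objects, `|T| = n k - 1`: in a solution of minimal support exactly `|L| - 1` objects are
shared, each by two agents, all of them belong to `T`, and every agent has `k - 1` whole objects
of `T`.
-/

namespace Pool.Agent.FairDivP

open Pool.Agent.FairDiv Pool.Agent.FairDivS Finset

variable {n m : ℕ}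

/-- the agents of `L` which have a share of the object `o` -/
noncomputable def owners (L : Finset (Fin n)) (z : Fin n → Fin m → ℝ) (o : Fin m) :
    Finset (Fin n) :=
  L.filter fun i => z i o ≠ 0

theorem mem_owners {L : Finset (Fin n)} {z : Fin n → Fin m → ℝ} {o : Fin m} {i : Fin n} :
    i ∈ owners L z o ↔ i ∈ L ∧ z i o ≠ 0 := by
  simp [owners]

/-- a solution of minimal support for the agents of `L` and the objects outside `K` -/
structure MinSol (v : Fin n → Fin m → ℕ) (L : Finset (Fin n)) (K : Finset (Fin m))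
    (z : Fin n → Fin m → ℝ) : Prop where
  nonneg : ∀ i o, 0 ≤ z i o
  off : ∀ i o, i ∉ L → z i o = 0
  offK : ∀ i o, o ∈ K → z i o = 0
  col : ∀ o, o ∉ K → ∑ i ∈ L, z i o = 1
  acc : ∀ i ∈ L, Acc v i (z i)
  few : ∑ o, ((owners L z o).card - 1) + 1 ≤ L.card
  pos : ∀ i o, z i o ≠ 0 → z i o ≠ 1 → 0 < v i o

theorem SatSet.exists_minSol {v : Fin n → Fin m → ℕ} {L : Finset (Fin n)} (hL : L.Nonempty)
    {K : Finset (Fin m)} (h : SatSet v L K) : ∃ z, MinSol v L K z := by
  classical
  obtain ⟨z0, h0, h1, h2⟩ := h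
  obtain ⟨a, ha⟩ := hL
  have : Nonempty L := ⟨⟨a, ha⟩⟩
  let v' : L → Fin m → ℝ := fun i o => if o ∈ K then 0 else (v i o : ℝ)
  let z1 : L → Fin m → ℝ := fun i o =>
    if o ∈ K then (if (i : Fin n) = a then 1 else 0)
    else z0 i o + (if (i : Fin n) = a then 1 - ∑ j ∈ L, z0 j o else 0)
  have hs : ∑ i : L, (if (i : Fin n) = a then (1 : ℝ) else 0) = 1 := by
    rw [sum_coe_sort L (fun i : Fin n => if i = a then (1 : ℝ) else 0), sum_ite_eq' L a, if_pos ha]
  have hz10 : ∀ i o, 0 ≤ z1 i o := by
    intro i o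
    by_cases ho : o ∈ K
    · simp only [z1, if_pos ho]
      split_ifs <;> norm_num
    · simp only [z1, if_neg ho]
      have h3 := h1 o
      rw [if_neg ho] at h3
      have := h0 i o
      split_ifs <;> linarith
  have hz11 : ∀ o, ∑ i, z1 i o = 1 := by
    intro o
    by_cases ho : o ∈ K
    · simp only [z1, if_pos ho]
      exact hs
    · simp only [z1, if_neg ho]
      rw [sum_coe_sort L (fun i : Fin n => z0 i o + (if i = a then 1 - ∑ j ∈ L, z0 j o else 0)),
        sum_add_distrib, sum_ite_eq' L a, if_pos ha]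
      ring
  obtain ⟨w, hb, he, hp⟩ := few_edges (v := v') (fun i o => by
    simp only [v']
    split_ifs
    · exact le_rfl
    · exact Nat.cast_nonneg _) hz10 hz11
  let z : Fin n → Fin m → ℝ := fun i o => if h : i ∈ L then (if o ∈ K then 0 else w ⟨i, h⟩ o) else 0
  have hzw : ∀ (i : L) (o : Fin m), o ∉ K → z i o = w i o := by
    intro i o ho
    simp only [z, dif_pos i.2, if_neg ho]
  have hzK : ∀ i o, o ∈ K → z i o = 0 := by
    intro i o ho
    simp only [z, if_pos ho]
    split_ifs <;> rfl
  have hzL : ∀ i o, i ∉ L → z i o = 0 := fun i o hi => by simp only [z, dif_neg hi]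
  -- the columns
  let c : Fin m → ℕ := fun o => (univ.filter fun i : L => w i o ≠ 0).card
  have hcard : (supp w).card = ∑ o, c o := by
    simp only [supp, c, card_filter]
    rw [Fintype.sum_prod_type_right]
  have hc1 : ∀ o, 1 ≤ c o := by
    intro o
    rw [Nat.one_le_iff_ne_zero, Ne, card_eq_zero, filter_eq_empty_iff]
    intro hno
    have h3 := hb.col o
    rw [sum_eq_zero (fun i _ => by
      have := hno (mem_univ i)
      push Not at this
      exact this)] at h3
    exact zero_ne_one h3
  have hsum : ∑ o, (c o - 1) + m = ∑ o, c o := by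
    have : ∑ o, (c o - 1) + ∑ _o : Fin m, 1 = ∑ o, c o := by
      rw [← sum_add_distrib]
      exact sum_congr rfl fun o _ => by have := hc1 o; omega
    simpa using this
  have hle : ∀ o, (owners L z o).card ≤ c o := by
    intro o
    by_cases ho : o ∈ K
    · have : owners L z o = ∅ := by
        ext i
        simp [mem_owners, hzK i o ho]
      rw [this, card_empty]
      exact Nat.zero_le _
    · have : owners L z o = (univ.filter fun i : L => w i o ≠ 0).map (Function.Embedding.subtype _) := by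
        ext i
        simp only [mem_owners, mem_map, mem_filter, mem_univ, true_and,
          Function.Embedding.coe_subtype]
        constructor
        · rintro ⟨hi, hz⟩
          exact ⟨⟨i, hi⟩, by rw [← hzw ⟨i, hi⟩ o ho]; exact hz, rfl⟩
        · rintro ⟨j, hj, rfl⟩
          exact ⟨j.2, by rw [hzw j o ho]; exact hj⟩
      rw [this, card_map]
  refine ⟨z, ⟨?_, hzL, hzK, ?_, ?_, ?_, ?_⟩⟩
  · intro i o
    simp only [z]
    split_ifs
    · exact le_rfl
    · exact hb.nonneg _ _
    · exact le_rfl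
  · intro o ho
    rw [← sum_coe_sort L (fun i => z i o), ← hb.col o]
    exact sum_congr rfl fun i _ => hzw i o ho
  · intro i hi
    have h3 := hb.le ⟨i, hi⟩
    have h4 : ∑ o, v' ⟨i, hi⟩ o * w ⟨i, hi⟩ o = ∑ o, (v i o : ℝ) * z i o := by
      refine sum_congr rfl fun o _ => ?_
      by_cases ho : o ∈ K
      · simp [v', ho, hzK i o ho]
      · rw [show z i o = w ⟨i, hi⟩ o from hzw ⟨i, hi⟩ o ho]
        simp only [v', if_neg ho]
    have h5 : ∑ o, (v i o : ℝ) * z0 i o ≤ ∑ o, v' ⟨i, hi⟩ o * z1 ⟨i, hi⟩ o := by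
      refine sum_le_sum fun o _ => ?_
      have h6 := h1 o
      by_cases ho : o ∈ K
      · rw [if_pos ho] at h6
        have h7 : z0 i o = 0 := le_antisymm
          ((single_le_sum (fun j _ => h0 j o) hi).trans h6) (h0 i o)
        simp [v', ho, h7]
      · rw [if_neg ho] at h6
        simp only [v', z1, if_neg ho]
        refine mul_le_mul_of_nonneg_left ?_ (Nat.cast_nonneg _)
        split_ifs <;> linarith
    exact (h2 i hi).trans (h5.trans (h3.trans h4.le))
  · have h3 : ∑ o, ((owners L z o).card - 1) ≤ ∑ o, (c o - 1) :=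
      sum_le_sum fun o _ => Nat.sub_le_sub_right (hle o) 1
    have h4 := he
    rw [hcard, ← hsum, Fintype.card_coe, Fintype.card_fin] at h4
    omega
  · intro i o hz0 hz1
    by_cases hi : i ∈ L
    · by_cases ho : o ∈ K
      · exact absurd (hzK i o ho) hz0
      · rw [show z i o = w ⟨i, hi⟩ o from hzw ⟨i, hi⟩ o ho] at hz0 hz1
        have := hp ⟨i, hi⟩ o hz0 hz1
        simp only [v', if_neg ho] at this
        exact_mod_cast this
    · exact absurd (hzL i o hi) hz0

/-- the solution of a minimal set of agents -/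
structure TreeSol (v : Fin n → Fin m → ℕ) (T : Finset (Fin m)) (k : ℕ) (L : Finset (Fin n))
    (K : Finset (Fin m)) (z : Fin n → Fin m → ℝ) : Prop extends MinSol v L K z where
  whole : ∀ i ∈ L, (T.filter fun o => z i o = 1).card + 1 = k
  sharedT : ∀ o, 2 ≤ (owners L z o).card → o ∈ T \ K
  two : ∀ o, (owners L z o).card ≤ 2
  card_shared : (univ.filter fun o => 2 ≤ (owners L z o).card).card + 1 = L.card

theorem MinSol.eq_one {v : Fin n → Fin m → ℕ} {L : Finset (Fin n)} {K : Finset (Fin m)}
    {z : Fin n → Fin m → ℝ} (h : MinSol v L K z) {o : Fin m} (ho : o ∉ K)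
    (hc : (owners L z o).card ≤ 1) : ∃ i ∈ L, z i o = 1 := by
  classical
  have h1 := h.col o ho
  obtain ⟨i, hi, hz⟩ : ∃ i ∈ L, z i o ≠ 0 := by
    by_contra hno
    push Not at hno
    rw [sum_eq_zero hno] at h1
    exact zero_ne_one h1
  have h3 : ∑ j ∈ L, z j o = z i o := by
    refine sum_eq_single i (fun j hj hji => ?_) (fun hi' => absurd hi hi')
    by_contra hne
    have h2 : j = i := card_le_one.1 hc j (mem_owners.2 ⟨hj, hne⟩) i (mem_owners.2 ⟨hi, hz⟩)
    exact hji h2
  exact ⟨i, hi, h3.symm.trans h1⟩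

theorem MinSol.others_eq_zero {v : Fin n → Fin m → ℕ} {L : Finset (Fin n)} {K : Finset (Fin m)}
    {z : Fin n → Fin m → ℝ} (h : MinSol v L K z) {o : Fin m} {i j : Fin n} (hi : i ∈ L)
    (hz : z i o = 1) (hij : j ≠ i) : z j o = 0 := by
  classical
  by_cases hj : j ∈ L
  · have ho : o ∉ K := fun ho => by
      rw [h.offK i o ho] at hz
      exact zero_ne_one hz
    have h1 := h.col o ho
    have h2 : z i o + z j o ≤ ∑ a ∈ L, z a o := by
      rw [← add_sum_erase L _ hi]
      have : z j o ≤ ∑ a ∈ L.erase i, z a o :=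
        single_le_sum (f := fun a => z a o) (fun a _ => h.nonneg a o) (mem_erase.2 ⟨hij, hj⟩)
      linarith
    linarith [h.nonneg j o]
  · exact h.off j o hj

theorem MinSol.treeSol {v : Fin n → Fin m → ℕ} {L : Finset (Fin n)} {K T : Finset (Fin m)}
    {z : Fin n → Fin m → ℝ} {k : ℕ} (h : MinSol v L K z) (hT : T.card + 1 = n * k)
    (hKT : K ⊆ T) (hK : K.card = (n - L.card) * k) (hL : L.Nonempty)
    (hmin : ∀ L' : Finset (Fin n), L'.Nonempty → L' ⊂ L → ∀ K' : Finset (Fin m), K' ⊆ T →
      K'.card = (n - L'.card) * k → ¬ SatSet v L' K') : TreeSol v T k L K z := by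
  classical
  have hLn : L.card ≤ n := by
    simpa using card_le_univ L
  have hL1 : 1 ≤ L.card := hL.card_pos
  have hTK : (T \ K).card + 1 = L.card * k := by
    have h1 := card_sdiff_add_card_eq_card hKT
    have h2 : (n - L.card) * k + L.card * k = n * k := by
      rw [← add_mul]
      congr 1
      omega
    omega
  let W : Fin n → Finset (Fin m) := fun i => T.filter fun o => z i o = 1
  have hWK : ∀ i ∈ L, ∀ o ∈ W i, o ∈ T \ K := by
    intro i _ o ho
    obtain ⟨h1, h2⟩ := mem_filter.1 ho
    refine mem_sdiff.2 ⟨h1, fun h3 => ?_⟩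
    rw [h.offK i o h3] at h2
    exact zero_ne_one h2
  have hW : ∀ i ∈ L, (W i).card + 1 ≤ k := by
    intro i hi
    by_contra hc
    push Not at hc
    have hc' : k ≤ (W i).card := by omega
    rcases Nat.lt_or_ge 1 L.card with h2 | h2
    · obtain ⟨C, hCW, hC⟩ := exists_subset_card_eq hc'
      have hne : (L.erase i).Nonempty := by
        rw [← card_pos, card_erase_of_mem hi]
        omega
      refine hmin (L.erase i) hne (erase_ssubset hi) (K ∪ C) (union_subset hKT fun o ho =>
        (mem_sdiff.1 (hWK i hi o (hCW ho))).1) ?_ ⟨z, h.nonneg, ?_, fun j hj =>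
          h.acc j (mem_of_mem_erase hj)⟩
      · rw [card_union_of_disjoint, hK, hC, card_erase_of_mem hi]
        · have : n - (L.card - 1) = (n - L.card) + 1 := by omega
          rw [this, add_mul, one_mul]
        · exact disjoint_right.2 fun o ho => (mem_sdiff.1 (hWK i hi o (hCW ho))).2
      · intro o
        by_cases hoK : o ∈ K
        · rw [if_pos (mem_union_left _ hoK), sum_eq_zero fun j _ => h.offK j o hoK]
        · by_cases hoC : o ∈ C
          · rw [if_pos (mem_union_right _ hoC), sum_eq_zero fun j hj =>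
              h.others_eq_zero hi (mem_filter.1 (hCW hoC)).2 (ne_of_mem_erase hj)]
          · rw [if_neg (by simp [hoK, hoC]), ← h.col o hoK]
            exact sum_le_sum_of_subset_of_nonneg (erase_subset _ _) fun j _ _ => h.nonneg j o
    · have h3 : L.card = 1 := le_antisymm h2 hL1
      have h4 : (W i).card ≤ (T \ K).card := card_le_card (hWK i hi)
      rw [h3, one_mul] at hTK
      omega
  let Sh : Finset (Fin m) := univ.filter fun o => 2 ≤ (owners L z o).card
  have hcov : T \ K ⊆ (L.biUnion W) ∪ (Sh ∩ (T \ K)) := by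
    intro o ho
    obtain ⟨hoT, hoK⟩ := mem_sdiff.1 ho
    rcases Nat.lt_or_ge (owners L z o).card 2 with h2 | h2
    · obtain ⟨i, hi, hz⟩ := h.eq_one hoK (by omega)
      exact mem_union_left _ (mem_biUnion.2 ⟨i, hi, mem_filter.2 ⟨hoT, hz⟩⟩)
    · exact mem_union_right _ (mem_inter.2 ⟨mem_filter.2 ⟨mem_univ _, h2⟩, ho⟩)
  have hc1 : (T \ K).card ≤ ∑ i ∈ L, (W i).card + (Sh ∩ (T \ K)).card :=
    (card_le_card hcov).trans ((card_union_le _ _).trans (Nat.add_le_add_right card_biUnion_le _))
  have hc2 : (Sh ∩ (T \ K)).card ≤ Sh.card := card_le_card inter_subset_left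
  have hfew : ∑ o ∈ Sh, ((owners L z o).card - 1) ≤ ∑ o, ((owners L z o).card - 1) :=
    sum_le_sum_of_subset (subset_univ _)
  have hc3 : Sh.card ≤ ∑ o ∈ Sh, ((owners L z o).card - 1) := by
    rw [card_eq_sum_ones]
    refine sum_le_sum fun o ho => ?_
    have := (mem_filter.1 ho).2
    omega
  have hfew' := h.few
  have hsum1 : ∑ i ∈ L, ((W i).card + 1) ≤ L.card * k := by
    calc ∑ i ∈ L, ((W i).card + 1) ≤ ∑ _i ∈ L, k := sum_le_sum hW
      _ = L.card * k := by rw [sum_const, smul_eq_mul]
  have hsum2 : ∑ i ∈ L, ((W i).card + 1) = ∑ i ∈ L, (W i).card + L.card := by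
    rw [sum_add_distrib, sum_const, smul_eq_mul, mul_one]
  refine ⟨h, ?_, ?_, ?_, ?_⟩
  · intro i hi
    have h2 : ∑ j ∈ L, ((W j).card + 1) = ∑ _j ∈ L, k := by
      rw [sum_const, smul_eq_mul]
      omega
    exact (sum_eq_sum_iff_of_le hW).1 h2 i hi
  · intro o ho
    have h3 : Sh ∩ (T \ K) = Sh := eq_of_subset_of_card_le inter_subset_left (by omega)
    have h4 : o ∈ Sh := mem_filter.2 ⟨mem_univ _, ho⟩
    rw [← h3] at h4
    exact (mem_inter.1 h4).2
  · intro o
    by_contra hc
    push Not at hc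
    have ho : o ∈ Sh := mem_filter.2 ⟨mem_univ _, by omega⟩
    have h5 : Sh.card < ∑ o ∈ Sh, ((owners L z o).card - 1) := by
      rw [card_eq_sum_ones]
      refine sum_lt_sum (fun o ho => ?_) ⟨o, ho, by omega⟩
      have := (mem_filter.1 ho).2
      omega
    omega
  · change Sh.card + 1 = L.card
    omega

end Pool.Agent.FairDivP
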