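import Pool.Agent.Lib_MP_42f051_lc_p.Defs
import Pool.Agent.Lib_MP_033923_lc.BinNat

/-!
# Generically polynomial time
-/

namespace Pool.Agent.FairDivP

open Turing Computability N487b59b3

/-- The inputs of size `t`: the vectors of `t` natural numbers in `[0, 2 ^ (c t)]`. -/
def Inputs (c t : ℕ) : Set (List ℕ) := {x | x.length = t ∧ ∀ a ∈ x, a ≤ 2 ^ (c * t)}

/-- The ball around `x` with radius `r` (maximum norm) in the set of the inputs of size `t`. -/
def Ball (c t : ℕ) (x : List ℕ) (r : ℕ) : Set (List ℕ) :=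
  {y | y ∈ Inputs c t ∧ ∀ i, |((y.getD i 0 : ℕ) : ℤ) - (x.getD i 0 : ℕ)| ≤ (r : ℤ)}

/-- The machine `M` (two alphabets of bits) answers the question `Q` on the input `y`. -/
def Answers (M : TM2ComputableAux Bool Bool) (Q : List ℕ → Prop) (y : List ℕ) : Prop :=
  ∃ b : Bool, (b = true ↔ Q y) ∧
    Nonempty (TM2Outputs M.tm (List.map M.inputAlphabet.invFun (bitEncode y))
      (some (List.map M.outputAlphabet.invFun (bitEncode b))))

/-- The machine `M` answers the question `Q` on the input `y` in at most `k` steps. -/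
def AnswersIn (M : TM2ComputableAux Bool Bool) (Q : List ℕ → Prop) (y : List ℕ) (k : ℕ) : Prop :=
  ∃ b : Bool, (b = true ↔ Q y) ∧
    Nonempty (TM2OutputsInTime M.tm (List.map M.inputAlphabet.invFun (bitEncode y))
      (some (List.map M.outputAlphabet.invFun (bitEncode b))) k)

/-- The decision problem `Q`, whose inputs are the vectors of `t` natural numbers in `[0, 2 ^ (c t)]`
with `n ∣ t`, has an algorithm `M` that runs generically in polynomial time: there is a polynomial `f`
such that for every `t` and every input `x` of size `t` there is a subset `G x` of the ball with radius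
`f t` around `x` with (a) `M` runs in time `p t` on every input in `G x` (`p` a polynomial); (b) for
every `ε > 0` and all large `t`, `|G x| ≥ (1 - ε) |B(x, f t)|` for all inputs `x` of size `t`; (c) an
element of `G x` can be computed from `x` in polynomial time. -/
def GenericallyPoly (c n : ℕ) (Q : List ℕ → Prop) : Prop :=
  ∃ (M : TM2ComputableAux Bool Bool) (f p : Polynomial ℕ) (G : List ℕ → Set (List ℕ))
    (g : List ℕ → List ℕ),
    (∀ t, n ∣ t → ∀ x ∈ Inputs c t, Answers M Q x) ∧
    (∀ t, n ∣ t → ∀ x ∈ Inputs c t, G x ⊆ Ball c t x (f.eval t)) ∧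
    (∀ t, n ∣ t → ∀ x ∈ Inputs c t, ∀ y ∈ G x, AnswersIn M Q y (p.eval t)) ∧
    (∀ ε : ℝ, 0 < ε → ∃ t₀, ∀ t, t₀ ≤ t → n ∣ t → ∀ x ∈ Inputs c t,
      (1 - ε) * (Ball c t x (f.eval t)).ncard ≤ (G x).ncard) ∧
    N68a2faeb.IsPolyTime g ∧ ∀ t, n ∣ t → ∀ x ∈ Inputs c t, g x ∈ G x

theorem bitEncode_length_le {c t : ℕ} {x : List ℕ} (hx : x ∈ Inputs c t) :
    (bitEncode x).length ≤ t * (2 * (c * t + 1) + 1) := by
  obtain ⟨h1, h2⟩ := hx
  subst h1
  generalize hB : c * x.length = B at h2 ⊢
  clear hB
  change (((x.map bitEncode).map delimit).flatten).length ≤ _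
  induction x with
  | nil => simp
  | cons a x ih =>
    have h3 : a < 2 ^ (B + 1) := lt_of_le_of_lt (h2 a (by simp))
      (Nat.pow_lt_pow_right (by norm_num) (by omega))
    have h4 : (bitEncode a).length ≤ B + 1 := by
      change (encodeNat a).length ≤ _
      rw [PartSep.TM.encodeNat_length]
      exact Nat.size_le.2 h3
    have h5 := ih (fun b hb => h2 b (List.mem_cons_of_mem _ hb))
    simp only [List.map_cons, List.flatten_cons, List.length_append, length_delimit,
      List.length_cons, Nat.succ_mul] at h5 ⊢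
    omega

theorem self_mem_ball {c t : ℕ} {x : List ℕ} (hx : x ∈ Inputs c t) (r : ℕ) : x ∈ Ball c t x r :=
  ⟨hx, fun i => by simp⟩

theorem ball_zero {c t : ℕ} {x : List ℕ} (hx : x ∈ Inputs c t) : Ball c t x 0 = {x} := by
  ext y
  change (y ∈ Inputs c t ∧ _) ↔ y = x
  constructor
  · rintro ⟨hy, h⟩
    apply List.ext_getElem (hy.1.trans hx.1.symm)
    intro i h1 h2
    have h3 := h i
    rw [List.getD_eq_getElem _ _ h1, List.getD_eq_getElem _ _ h2] at h3
    have h4 : ((y[i] : ℕ) : ℤ) - (x[i] : ℕ) = 0 := by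
      have := abs_nonneg (((y[i] : ℕ) : ℤ) - (x[i] : ℕ))
      exact abs_eq_zero.1 (le_antisymm (by exact_mod_cast h3) this)
    omega
  · rintro rfl
    exact ⟨hx, fun i => by simp⟩

theorem eval_mono' (p : Polynomial ℕ) {a b : ℕ} (h : a ≤ b) : p.eval a ≤ p.eval b := by
  induction p using Polynomial.induction_on' with
  | add p q hp hq => simp only [Polynomial.eval_add]; omega
  | monomial n a => simp only [Polynomial.eval_monomial]; gcongr

/-- A problem that is decided by a polynomial time function has, for every `c`, an algorithm that runs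
generically in polynomial time. -/
theorem genericallyPoly_of_polyTime {n : ℕ} {Q : List ℕ → Prop} {A : List ℕ → Bool}
    (hA : N68a2faeb.IsPolyTime A) (h : ∀ y : List ℕ, n ∣ y.length → (A y = true ↔ Q y)) (c : ℕ) :
    GenericallyPoly c n Q := by
  obtain ⟨M⟩ := hA
  refine ⟨M.toTM2ComputableAux, 0,
    M.time.comp (Polynomial.X * (2 * (Polynomial.C c * Polynomial.X + 1) + 1)), fun x => {x}, id,
    ?_, ?_, ?_, ?_, N68a2faeb.isPolyTime_id, ?_⟩
  · intro t ht x hx
    refine ⟨A x, h x (by rw [hx.1]; exact ht), ⟨(M.outputsFun x).toTM2Outputs⟩⟩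
  · intro t ht x hx
    rw [Polynomial.eval_zero, ball_zero hx]
  · rintro t ht x hx y rfl
    refine ⟨A y, h y (by rw [hx.1]; exact ht), ⟨?_⟩⟩
    have h1 := M.outputsFun y
    refine ⟨h1.toEvalsTo, h1.steps_le_m.trans ?_⟩
    rw [Polynomial.eval_comp]
    have h2 := bitEncode_length_le hx
    refine (eval_mono' M.time h2).trans_eq ?_
    simp
  · intro ε hε
    refine ⟨0, fun t _ _ x hx => ?_⟩
    rw [Polynomial.eval_zero, ball_zero hx]
    simp only [Set.ncard_singleton, Nat.cast_one, mul_one]
    linarith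
  · intro t ht x hx
    rfl

end Pool.Agent.FairDivP
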