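import Pool.Agent.Lib_MP_42fe4d_lc.CL.Hard
import Pool.Agent.Lib_MP_42f051_lc_p.Clock
import Pool.Agent.Lib_MP_42f051_lc_p.GenPoly

/-!
# A generically NP-hard problem has no generically polynomial algorithm, unless P = NP
-/

namespace Pool.Agent.FairDivP

open Pool.Agent.PartSep Pool.Agent.PartSep.TM Pool.Agent.PartSep.TM.Rep Pool.Agent.PartSep.CL
open Pool.Agent.PartSep.CL.WM Turing N487b59b3 Pool.Agent.FairDiv

set_option synthInstance.maxSize 2000

/-- tests whether a word belongs to a finite set of words -/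
theorem fp_memWords {E : Type} [Rep E] {s : E → List Sym} (hs : FP s) (W : List (List Sym)) :
    FP (fun x => decide (s x ∈ W)) := by
  induction W with
  | nil => exact (FP.const false).congr (fun x => by simp)
  | cons w W ih =>
    refine (FP.or (FP.eqS hs (FP.const w)) ih).congr (fun x => ?_)
    rw [Bool.eq_iff_iff]
    simp

theorem finite_small (t B : ℕ) : {y : List ℕ | y.length < t ∧ ∀ a ∈ y, a ≤ B}.Finite := by
  refine ((List.finite_length_lt (Fin (B + 1)) t).image (List.map Fin.val)).subset ?_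
  rintro y ⟨h1, h2⟩
  refine ⟨y.pmap (fun a ha => ⟨a, Nat.lt_succ_of_le ha⟩) h2, ?_, ?_⟩
  · simpa using h1
  · rw [List.map_pmap]
    simp

/-- the core of the argument -/
theorem mem_P_of_clock {c t₀ : ℕ} {L : List Bool → Bool}
    {h : List Bool → List ℕ} (hh : N68a2faeb.IsPolyTime h)
    {e : List ℕ → List ℕ} (he : N68a2faeb.IsPolyTime e)
    (hb : ∀ x, ∀ a ∈ h x, a ≤ 2 ^ (c * (h x).length)) {Q : List ℕ → Prop}
    (h0 : ∀ x, Q (h x) ↔ L x = true) (tm : FinTM2) (ia : tm.Γ tm.k₀ ≃ Bool)
    (oa : tm.Γ tm.k₁ ≃ Bool) (p : Polynomial ℕ)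
    (hrun : ∀ x, t₀ ≤ (h x).length →
      Nonempty (TM2OutputsInTime tm ((bitEncode (e (h x))).map ia.invFun)
        (some ((bitEncode (L x)).map oa.invFun)) (p.eval (bitEncode (e (h x))).length))) :
    L ∈ N68a2faeb.P := by
  classical
  obtain ⟨gh, hgh, Hh⟩ := FP.ofTM2 hh
  obtain ⟨ge, hge, He⟩ := FP.ofTM2 he
  obtain ⟨gc, hgc, Hc⟩ := fp_clock tm ia oa p
  set S := (finite_small t₀ (2 ^ (c * t₀))).toFinset with hS
  set W : List (List Sym) := S.toList.map (fun y => (bitEncode y).map bs) with hW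
  set WQ : List (List Sym) := (S.filter (fun y => Q y)).toList.map
    (fun y => (bitEncode y).map bs) with hWQ
  have hinj : ∀ y y' : List ℕ, (bitEncode y).map bs = (bitEncode y').map bs → y = y' := by
    intro y y' hy
    apply bitEncode_injective
    have := congrArg (List.map sb) hy
    rwa [CL.map_sb_bs, CL.map_sb_bs] at this
  have memW : ∀ y : List ℕ, (bitEncode y).map bs ∈ W ↔ y ∈ S := by
    intro y
    rw [hW, List.mem_map]
    constructor
    · rintro ⟨z, hz, hy⟩
      rw [← hinj _ _ hy]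
      exact Finset.mem_toList.1 hz
    · intro hy
      exact ⟨y, Finset.mem_toList.2 hy, rfl⟩
  have memWQ : ∀ y : List ℕ, (bitEncode y).map bs ∈ WQ ↔ y ∈ S ∧ Q y := by
    intro y
    rw [hWQ, List.mem_map]
    constructor
    · rintro ⟨z, hz, hy⟩
      rw [← hinj _ _ hy]
      exact Finset.mem_filter.1 (Finset.mem_toList.1 hz)
    · intro hy
      exact ⟨y, Finset.mem_toList.2 (Finset.mem_filter.2 hy), rfl⟩
  refine mem_P_of_fp (g := fun s => if decide (gh s ∈ W) then
      (if decide (gh s ∈ WQ) then [bs true] else [bs false]) else gc (ge (gh s))) ?_ (fun x => ?_)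
  · exact FP.ite (fp_memWords hgh W) (FP.ite (fp_memWords hgh WQ) (FP.const _) (FP.const _))
      (FP.comp hgc (FP.comp hge hgh))
  · have e1 : gh ((bitEncode x).map bs) = (bitEncode (h x)).map bs := Hh x
    simp only [e1]
    by_cases hx : h x ∈ S
    · rw [if_pos (by simpa using (memW _).2 hx)]
      by_cases hq : Q (h x)
      · rw [if_pos (by simpa using (memWQ _).2 ⟨hx, hq⟩), (h0 x).1 hq]
      · rw [if_neg (by simpa using fun h' => hq ((memWQ _).1 h').2)]
        have : L x = false := by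
          rw [← Bool.not_eq_true]
          exact fun h' => hq ((h0 x).2 h')
        rw [this]
    · rw [if_neg (by simpa using fun h' => hx ((memW _).1 h'))]
      have hlen : t₀ ≤ (h x).length := by
        by_contra hlt
        apply hx
        rw [hS, Set.Finite.mem_toFinset]
        exact ⟨by omega, fun a ha => (hb x a ha).trans
          (Nat.pow_le_pow_right (by norm_num) (Nat.mul_le_mul_left _ (by omega)))⟩
      have e2 : ge ((bitEncode (h x)).map bs) = (bitEncode (e (h x))).map bs := He (h x)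
      rw [e2, Hc _ _ (hrun x hlen)]
      rfl

/-- an NP-hard problem in P -/
theorem np_subset_p {L : List Bool → Bool}
    (hL : ∀ L' ∈ N68a2faeb.NP, N793a5b8e.ManyOneReducible L' L) (h : L ∈ N68a2faeb.P) :
    N68a2faeb.NP ⊆ N68a2faeb.P := by
  intro L' hL'
  obtain ⟨f, hf, hLf⟩ := hL L' hL'
  obtain ⟨gf, hgf, Hf⟩ := FP.ofTM2 hf
  have h' : N68a2faeb.IsPolyTime L := h
  obtain ⟨g, hg, Hg⟩ := FP.ofTM2 h'
  refine mem_P_of_fp (g := fun s => g (gf s)) (FP.comp hg hgf) (fun x => ?_)
  have e1 : gf ((bitEncode x).map bs) = (bitEncode (f x)).map bs := Hf x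
  have e2 : g ((bitEncode (f x)).map bs) = (bitEncode (L (f x))).map bs := Hg (f x)
  rw [e1, e2, hLf x]
  rfl

/-- a polynomial is at most a power -/
theorem eval_le_pow (f : Polynomial ℕ) : ∃ k t₀, ∀ t, t₀ ≤ t → f.eval t ≤ t ^ k := by
  refine ⟨f.natDegree + 1, max 1 (f.eval 1), fun t ht => ?_⟩
  have h1 : 1 ≤ t := (le_max_left _ _).trans ht
  have h2 : f.eval 1 ≤ t := (le_max_right _ _).trans ht
  calc f.eval t = ∑ i ∈ Finset.range (f.natDegree + 1), f.coeff i * t ^ i :=
        Polynomial.eval_eq_sum_range t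
    _ ≤ ∑ i ∈ Finset.range (f.natDegree + 1), f.coeff i * t ^ f.natDegree := by
        refine Finset.sum_le_sum (fun i hi => Nat.mul_le_mul_left _ ?_)
        exact Nat.pow_le_pow_right h1 (Nat.lt_succ_iff.1 (Finset.mem_range.1 hi))
    _ = f.eval 1 * t ^ f.natDegree := by
        rw [← Finset.sum_mul, Polynomial.eval_eq_sum_range]
        simp
    _ ≤ t * t ^ f.natDegree := Nat.mul_le_mul_right _ h2
    _ = t ^ (f.natDegree + 1) := by rw [pow_succ, mul_comm]

/-- If a generically NP-hard problem has an algorithm that runs generically in polynomial time (for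
some sufficiently large constant `c`), then NP is contained in P. -/
theorem np_subset_p_of_generic {n : ℕ} {Q : List ℕ → Prop} (hH : GenericallyNPHard n Q) :
    ∃ c₀, ∀ c, c₀ ≤ c → GenericallyPoly c n Q → N68a2faeb.NP ⊆ N68a2faeb.P := by
  obtain ⟨c₀, L, h, g, hL, hh, hg, H⟩ := hH
  refine ⟨c₀, fun c hc hG => np_subset_p hL ?_⟩
  obtain ⟨M, f, p, G, e, -, hball, htime, -, he, hmem⟩ := hG
  obtain ⟨k, t₁, hk⟩ := eval_le_pow f
  obtain ⟨t₂, ht₂⟩ := hg k
  have hin : ∀ x, h x ∈ Inputs c (h x).length := fun x => ⟨rfl, fun a ha =>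
    ((H x).2.1 a ha).trans (Nat.pow_le_pow_right (by norm_num) (Nat.mul_le_mul_right _ hc))⟩
  refine mem_P_of_clock (c := c) (t₀ := max t₁ t₂) hh he (fun x => (hin x).2) (Q := Q)
    (fun x => ?_) M.tm M.inputAlphabet M.outputAlphabet p (fun x hx => ?_)
  · exact (H x).2.2 (h x) rfl (fun i => by simp)
  · have h1 := hmem _ (H x).1 (h x) (hin x)
    have h2 := hball _ (H x).1 (h x) (hin x) h1
    have h3 : f.eval (h x).length ≤ g (h x).length :=
      (hk _ ((le_max_left _ _).trans hx)).trans (ht₂ _ ((le_max_right _ _).trans hx))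
    have h4 : Q (e (h x)) ↔ L x = true :=
      (H x).2.2 (e (h x)) h2.1.1 (fun i => (h2.2 i).trans (by exact_mod_cast h3))
    obtain ⟨b, hb, ⟨hout⟩⟩ := htime _ (H x).1 (h x) (hin x) _ h1
    have h5 : b = L x := by
      rw [Bool.eq_iff_iff, hb, h4]
    subst h5
    refine ⟨⟨hout.toEvalsTo, hout.steps_le_m.trans (eval_mono' p ?_)⟩⟩
    have h6 : (e (h x)).length = (h x).length := h2.1.1
    rw [← h6]
    have h7 := length_le_length_flatten_delimit ((e (h x)).map bitEncode)
    rw [List.length_map] at h7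
    exact h7

end Pool.Agent.FairDivP
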