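import Pool.Agent.Lib_MP_42f051_lc_p.EdgesB

/-!
# Minimal sets of satisfied agents
-/

namespace Pool.Agent.FairDivP

open Pool.Agent.FairDiv Pool.Agent.FairDivS Finset

variable {n m : ℕ}

theorem SatSet.mono {v : Fin n → Fin m → ℕ} {L : Finset (Fin n)} {K K' : Finset (Fin m)}
    (h : SatSet v L K) (hK : K' ⊆ K) : SatSet v L K' := by
  obtain ⟨z, h0, h1, h2⟩ := h
  refine ⟨z, h0, fun o => (h1 o).trans ?_, h2⟩
  by_cases ho : o ∈ K'
  · rw [if_pos (hK ho), if_pos ho]
  · rw [if_neg ho]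
    split_ifs <;> norm_num

theorem SatSet.anti {v : Fin n → Fin m → ℕ} {L L' : Finset (Fin n)} {K : Finset (Fin m)}
    (h : SatSet v L K) (hL : L' ⊆ L) : SatSet v L' K := by
  obtain ⟨z, h0, h1, h2⟩ := h
  exact ⟨z, h0, fun o => (sum_le_sum_of_subset_of_nonneg hL fun i _ _ => h0 i o).trans (h1 o),
    fun i hi => h2 i (hL hi)⟩

/-- A set of satisfied agents of minimal size. -/
theorem exists_min_satSet {v : Fin n → Fin m → ℕ} {k : ℕ} {T K₀ : Finset (Fin m)}
    {L₀ : Finset (Fin n)} (hL₀ : L₀.Nonempty) (hne : L₀ ≠ univ) (hK₀ : K₀ ⊆ T)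
    (hc₀ : K₀.card = (n - L₀.card) * k) (h : SatSet v L₀ K₀) :
    ∃ (L : Finset (Fin n)) (K : Finset (Fin m)), L.Nonempty ∧ L.card < n ∧ K ⊆ T ∧
      K.card = (n - L.card) * k ∧ SatSet v L K ∧
      ∀ L' : Finset (Fin n), L'.Nonempty → L'.card < L.card → ∀ K' ⊆ T,
        K'.card = (n - L'.card) * k → ¬ SatSet v L' K' := by
  classical
  let P : ℕ → Prop := fun l => ∃ (L : Finset (Fin n)) (K : Finset (Fin m)), L.card = l ∧
    L.Nonempty ∧ L.card < n ∧ K ⊆ T ∧ K.card = (n - L.card) * k ∧ SatSet v L K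
  have hlt : L₀.card < n := by
    have := card_lt_card (ssubset_univ_iff.mpr hne)
    rwa [card_univ, Fintype.card_fin] at this
  have hex : ∃ l, P l := ⟨_, L₀, K₀, rfl, hL₀, hlt, hK₀, hc₀, h⟩
  obtain ⟨L, K, hl, hLne, hLn, hK, hc, hS⟩ := Nat.find_spec hex
  refine ⟨L, K, hLne, hLn, hK, hc, hS, ?_⟩
  intro L' hL' hlt' K' hK' hc' hS'
  exact Nat.find_min hex (by rw [← hl]; exact hlt') ⟨L', K', rfl, hL', by omega, hK', hc', hS'⟩

/-- Agents which are not satisfied outside the sets of `(n - |L'|) k` objects of `T`, but are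
satisfied outside `M`, need at least `|L'| k` objects of `T`. -/
theorem le_card_of_satSet {v : Fin n → Fin m → ℕ} {k : ℕ} {T M : Finset (Fin m)}
    {L' : Finset (Fin n)} (hT : T.card + 1 = n * k)
    (hmin : ∀ K' ⊆ T, K'.card = (n - L'.card) * k → ¬ SatSet v L' K') (h : SatSet v L' M) :
    L'.card * k ≤ (T \ M).card := by
  classical
  by_contra hcon
  have hle : L'.card ≤ n := by
    have := card_le_univ L'
    rwa [Fintype.card_fin] at this
  have h1 : (T \ M).card + (T ∩ M).card = T.card := by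
    rw [card_sdiff_add_card_inter]
  have h2 : (n - L'.card) * k + L'.card * k = n * k := by
    rw [← add_mul, Nat.sub_add_cancel hle]
  obtain ⟨K', hK', hc'⟩ := exists_subset_card_eq (s := T ∩ M) (n := (n - L'.card) * k) (by omega)
  exact hmin K' (hK'.trans inter_subset_left) hc' (h.mono (hK'.trans inter_subset_right))

/-- In a solution for a minimal set `L` a proper nonempty subset `A` of the agents touches at least
`|A| k` objects of `T`. -/
theorem MinSol.le_card_touched {v : Fin n → Fin m → ℕ} {k : ℕ} {T K : Finset (Fin m)}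
    {L A : Finset (Fin n)} {z : Fin n → Fin m → ℝ} (hz : MinSol v L K z)
    (hT : T.card + 1 = n * k)
    (hmin : ∀ L' : Finset (Fin n), L'.Nonempty → L'.card < L.card → ∀ K' ⊆ T,
      K'.card = (n - L'.card) * k → ¬ SatSet v L' K')
    (hA : A ⊆ L) (hAne : A.Nonempty) (hAL : A ≠ L) :
    A.card * k ≤ (T.filter fun o => ∃ i ∈ A, z i o ≠ 0).card := by
  classical
  have hlt : A.card < L.card := card_lt_card (ssubset_of_subset_of_ne hA hAL)
  have hS : SatSet v A (univ.filter fun o => ¬ ∃ i ∈ A, z i o ≠ 0) := by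
    refine ⟨z, hz.nonneg, fun o => ?_, fun i hi => hz.acc i (hA hi)⟩
    by_cases ho : ∃ i ∈ A, z i o ≠ 0
    · rw [if_neg (by simpa using ho)]
      have hoK : o ∉ K := by
        intro hoK
        obtain ⟨i, -, hi⟩ := ho
        exact hi (hz.offK i o hoK)
      rw [← hz.col o hoK]
      exact sum_le_sum_of_subset_of_nonneg hA fun i _ _ => hz.nonneg i o
    · rw [if_pos (by simpa using ho)]
      push Not at ho
      exact (sum_eq_zero fun i hi => ho i hi).le
  refine (le_card_of_satSet hT (hmin A hAne hlt) hS).trans (card_le_card fun o ho => ?_)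
  rw [mem_sdiff, mem_filter] at ho
  rw [mem_filter]
  refine ⟨ho.1, ?_⟩
  by_contra hc
  exact ho.2 ⟨mem_univ o, hc⟩

end Pool.Agent.FairDivP
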