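import Pool.Agent.Lib_MP_42f051_lc_p.YesMin

/-!
# The solution of a minimal set of agents is connected
-/

namespace Pool.Agent.FairDivP

open Pool.Agent.FairDiv Pool.Agent.FairDivS Finset

variable {n m : ℕ}

/-- In the solution of a minimal set `L`, a nonempty set `A` of agents is a part of at least `|A|`
shared objects. -/
theorem TreeSol.card_le_shared {v : Fin n → Fin m → ℕ} {k : ℕ} {T K : Finset (Fin m)}
    {L A : Finset (Fin n)} {z : Fin n → Fin m → ℝ} (hz : TreeSol v T k L K z)
    (hT : T.card + 1 = n * k)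
    (hmin : ∀ L' : Finset (Fin n), L'.Nonempty → L'.card < L.card → ∀ K' ⊆ T,
      K'.card = (n - L'.card) * k → ¬ SatSet v L' K')
    (hA : A ⊆ L) (hAne : A.Nonempty) (hAL : A ≠ L) :
    A.card ≤ (univ.filter fun o => 2 ≤ (owners L z o).card ∧ ∃ i ∈ A, z i o ≠ 0).card := by
  classical
  have h1 := hz.toMinSol.le_card_touched hT hmin hA hAne hAL
  set S : Finset (Fin m) := univ.filter fun o => 2 ≤ (owners L z o).card ∧ ∃ i ∈ A, z i o ≠ 0
    with hS
  have hsub : (T.filter fun o => ∃ i ∈ A, z i o ≠ 0) ⊆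
      (A.biUnion fun i => T.filter fun o => z i o = 1) ∪ S := by
    intro o ho
    rw [mem_filter] at ho
    obtain ⟨hoT, i, hi, hio⟩ := ho
    rw [mem_union]
    by_cases h2 : 2 ≤ (owners L z o).card
    · exact Or.inr (mem_filter.mpr ⟨mem_univ o, h2, i, hi, hio⟩)
    · left
      have hoK : o ∉ K := fun h => hio (hz.offK i o h)
      obtain ⟨j, hj, hj1⟩ := hz.toMinSol.eq_one hoK (by omega)
      have hij : i = j := by
        by_contra hne
        exact hio (hz.toMinSol.others_eq_zero hj hj1 hne)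
      subst hij
      exact mem_biUnion.mpr ⟨i, hi, mem_filter.mpr ⟨hoT, hj1⟩⟩
  have h2 : (A.biUnion fun i => T.filter fun o => z i o = 1).card ≤ A.card * (k - 1) := by
    refine card_biUnion_le.trans ?_
    rw [← smul_eq_mul, ← sum_const]
    refine sum_le_sum fun i hi => ?_
    have := hz.whole i (hA hi)
    omega
  have h3 := h1.trans ((card_le_card hsub).trans (card_union_le _ _))
  have hk : 1 ≤ k := by
    obtain ⟨i, hi⟩ := hAne
    have := hz.whole i (hA hi)
    omega
  have h4 : A.card * k = A.card * (k - 1) + A.card := by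
    obtain ⟨k', rfl⟩ : ∃ k', k = k' + 1 := ⟨k - 1, by omega⟩
    rw [Nat.add_sub_cancel]
    ring
  omega

/-- The solution of a minimal set `L` is connected: a shared object leads out of every proper
nonempty subset `A` of `L`. -/
theorem TreeSol.exists_edge {v : Fin n → Fin m → ℕ} {k : ℕ} {T K : Finset (Fin m)}
    {L A : Finset (Fin n)} {z : Fin n → Fin m → ℝ} (hz : TreeSol v T k L K z)
    (hT : T.card + 1 = n * k)
    (hmin : ∀ L' : Finset (Fin n), L'.Nonempty → L'.card < L.card → ∀ K' ⊆ T,
      K'.card = (n - L'.card) * k → ¬ SatSet v L' K')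
    (hA : A ⊆ L) (hAne : A.Nonempty) (hAL : A ≠ L) :
    ∃ o ∈ T \ K, ∃ a ∈ A, ∃ b ∈ L, b ∉ A ∧ z a o ≠ 0 ∧ z b o ≠ 0 := by
  classical
  by_contra hcon
  push Not at hcon
  have hB : (L \ A).Nonempty := by
    rw [sdiff_nonempty]
    exact fun h => hAL (Subset.antisymm hA h)
  have hBL : L \ A ≠ L := by
    intro h
    obtain ⟨i, hi⟩ := hAne
    have := hA hi
    rw [← h, mem_sdiff] at this
    exact this.2 hi
  have h1 := hz.card_le_shared hT hmin hA hAne hAL
  have h2 := hz.card_le_shared hT hmin sdiff_subset hB hBL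
  set SA : Finset (Fin m) := univ.filter fun o => 2 ≤ (owners L z o).card ∧ ∃ i ∈ A, z i o ≠ 0
    with hSA
  set SB : Finset (Fin m) :=
    univ.filter fun o => 2 ≤ (owners L z o).card ∧ ∃ i ∈ L \ A, z i o ≠ 0 with hSB
  have hdis : Disjoint SA SB := by
    refine disjoint_left.mpr fun o hoA hoB => ?_
    rw [hSA, mem_filter] at hoA
    rw [hSB, mem_filter] at hoB
    obtain ⟨-, h3, i, hi, hio⟩ := hoA
    obtain ⟨-, -, j, hj, hjo⟩ := hoB
    rw [mem_sdiff] at hj
    exact hjo (hcon o (hz.sharedT o h3) i hi j hj.1 hj.2 hio)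
  have h3 : SA.card + SB.card ≤ (univ.filter fun o => 2 ≤ (owners L z o).card).card := by
    rw [← card_union_of_disjoint hdis]
    refine card_le_card (union_subset ?_ ?_)
    · intro o ho
      rw [hSA, mem_filter] at ho
      exact mem_filter.mpr ⟨mem_univ o, ho.2.1⟩
    · intro o ho
      rw [hSB, mem_filter] at ho
      exact mem_filter.mpr ⟨mem_univ o, ho.2.1⟩
  have h4 := hz.card_shared
  have h5 : (L \ A).card + A.card = L.card := card_sdiff_add_card_eq_card hA
  omega

/-- the two owners of a shared object -/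
theorem TreeSol.two_owners {v : Fin n → Fin m → ℕ} {k : ℕ} {T K : Finset (Fin m)}
    {L : Finset (Fin n)} {z : Fin n → Fin m → ℝ} (hz : TreeSol v T k L K z) {o : Fin m}
    {a b : Fin n} (ha : a ∈ L) (hb : b ∈ L) (hab : a ≠ b) (hao : z a o ≠ 0) (hbo : z b o ≠ 0) :
    z a o + z b o = 1 ∧ (∀ i, i ≠ a → i ≠ b → z i o = 0) ∧ 0 < v a o ∧ 0 < v b o := by
  classical
  have hoK : o ∉ K := fun h => hao (hz.offK a o h)
  have hsub : ({a, b} : Finset (Fin n)) ⊆ owners L z o := by
    intro i hi
    rw [mem_insert, mem_singleton] at hi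
    rcases hi with rfl | rfl
    · exact mem_owners.mpr ⟨ha, hao⟩
    · exact mem_owners.mpr ⟨hb, hbo⟩
  have heq : ({a, b} : Finset (Fin n)) = owners L z o := by
    refine eq_of_subset_of_card_le hsub ?_
    rw [card_pair hab]
    exact hz.two o
  have h0 : ∀ i, i ≠ a → i ≠ b → z i o = 0 := by
    intro i hia hib
    by_contra hne
    by_cases hi : i ∈ L
    · have : i ∈ owners L z o := mem_owners.mpr ⟨hi, hne⟩
      rw [← heq, mem_insert, mem_singleton] at this
      rcases this with h | h
      · exact hia h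
      · exact hib h
    · exact hne (hz.off i o hi)
  have hsum : z a o + z b o = 1 := by
    rw [← hz.col o hoK, ← sum_subset (s₁ := {a, b}) (hsub.trans fun i hi => (mem_owners.mp hi).1),
      sum_pair hab]
    intro i _ hi
    rw [mem_insert, mem_singleton, not_or] at hi
    exact h0 i hi.1 hi.2
  have hne1 : z a o ≠ 1 := fun h => hbo (by linarith)
  have hne2 : z b o ≠ 1 := fun h => hao (by linarith)
  exact ⟨hsum, h0, hz.pos a o hao hne1, hz.pos b o hbo hne2⟩

end Pool.Agent.FairDivP
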